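import Mathlib
import Pool.Agent.H469R10.HO.Stmts5

set_option autoImplicit false

open Finset MeasureTheory Filter Topology

namespace Pool.Agent.H99R3.M469

open Pool.Agent.H469R10.HO

lemma contX {h : ℝ → ℝ} (hh : Continuous h) {M : ℝ} (hM : ∀ y, |h y| ≤ M) {n : ℕ} (hn : n ≠ 0) :
    Continuous fun x : ℝ => x ^ n * h x⁻¹ := by
  rw [continuous_iff_continuousAt]
  intro x
  by_cases hx : x = 0
  · subst hx
    have h1 : Tendsto (fun x : ℝ => x ^ n * h x⁻¹) (𝓝 0) (𝓝 0) := by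
      apply squeeze_zero_norm (a := fun x : ℝ => |x| ^ n * M)
      · intro t
        rw [Real.norm_eq_abs, abs_mul, abs_pow]
        exact mul_le_mul_of_nonneg_left (hM _) (by positivity)
      · have : Tendsto (fun x : ℝ => |x| ^ n * M) (𝓝 0) (𝓝 (|(0:ℝ)| ^ n * M)) :=
          (Continuous.tendsto (by fun_prop) 0)
        simpa [hn] using this
    show Tendsto _ _ _
    simpa [hn] using h1
  · exact ((continuous_pow n).continuousAt).mul (hh.continuousAt.comp (continuousAt_inv₀ hx))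

lemma derX0 {h : ℝ → ℝ} (hh : Continuous h) {M : ℝ} (hM : ∀ y, |h y| ≤ M) {n : ℕ} (hn : 2 ≤ n) :
    HasDerivAt (fun x : ℝ => x ^ n * h x⁻¹) 0 0 := by
  rw [hasDerivAt_iff_isLittleO_nhds_zero]
  obtain ⟨k, rfl⟩ : ∃ k, n = k + 1 := ⟨n - 1, by omega⟩
  have hk : k ≠ 0 := by omega
  have h1 := contX hh hM hk
  have h2 : Tendsto (fun x : ℝ => x ^ k * h x⁻¹) (𝓝 0) (𝓝 0) := by
    have := h1.tendsto 0
    simpa [hk] using this
  have h3 : (fun x : ℝ => (x ^ k * h x⁻¹) * x) =o[𝓝 0] (fun x : ℝ => (1:ℝ) * x) :=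
    ((Asymptotics.isLittleO_one_iff ℝ).2 h2).mul_isBigO (Asymptotics.isBigO_refl _ _)
  simp only [zero_add, smul_zero, sub_zero, one_mul] at h3 ⊢
  refine h3.congr_left fun x => ?_
  simp
  ring

section core

variable (S : Finset ℕ) (cl : ℕ → ℕ) (β ω φ : ℕ → ℝ)

/-- trigonometric sum -/
noncomputable def tr (y : ℝ) : ℝ := ∑ i ∈ S, β i * Real.cos (ω i * y + φ i)

lemma tr_cont : Continuous (tr S β ω φ) := by
  unfold tr
  exact continuous_finsetSum _ fun j _ => by fun_prop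

lemma tr_bd (y : ℝ) : |tr S β ω φ y| ≤ ∑ i ∈ S, |β i| := by
  unfold tr
  refine (abs_sum_le_sum_abs _ _).trans (sum_le_sum fun i _ => ?_)
  rw [abs_mul]
  exact mul_le_of_le_one_right (abs_nonneg _) (Real.abs_cos_le_one _)

variable {S cl β ω φ}

lemma tr_cell (hω : ∀ i ∈ S, |ω i - xx (cl i)| ≤ 1) (A : ℝ) :
    ∫ y in A..(A + 2), tr S β ω φ y ^ 2 ≤ 60 * QQ (fun _ => 1) S cl β := by
  have h := cell_ineq S cl β (fun i => ω i * A + φ i) (fun i => ω i - xx (cl i)) hω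
  have e : ∫ y in A..(A + 2), tr S β ω φ y ^ 2 = ∫ t in (0:ℝ)..2, tr S β ω φ (t + A) ^ 2 := by
    rw [intervalIntegral.integral_comp_add_right (fun y => tr S β ω φ y ^ 2)]
    simp [add_comm]
  rw [e]
  refine le_trans (le_of_eq ?_) h
  congr 1
  ext t
  congr 1
  unfold tr
  refine sum_congr rfl fun i _ => ?_
  congr 2
  ring

lemma seg (hω : ∀ i ∈ S, |ω i - xx (cl i)| ≤ 1) (n : ℕ) (hn : n ≠ 0) {A : ℝ} (hA : 0 < A) :
    ∫ x in (A + 2)⁻¹..A⁻¹, x ^ n * tr S β ω φ x⁻¹ ^ 2 ≤ (A⁻¹) ^ (n + 2) * (60 * QQ (fun _ => 1) S cl β) := by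
  set G : ℝ → ℝ := fun x => x ^ n * tr S β ω φ x⁻¹ ^ 2 with hG
  have hB : 0 < A + 2 := by linarith
  have hGc : Continuous G :=
    contX (h := fun y => tr S β ω φ y ^ 2) ((tr_cont S β ω φ).pow 2) (M := (∑ i ∈ S, |β i|) ^ 2)
      (fun y => by
        rw [abs_pow]
        exact pow_le_pow_left₀ (abs_nonneg _) (tr_bd S β ω φ y) 2) hn
  have hpos : ∀ y ∈ Set.uIcc A (A + 2), 0 < y := by
    intro y hy
    rw [Set.uIcc_of_le (by linarith)] at hy
    exact lt_of_lt_of_le hA hy.1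
  have h1 : ∫ y in A..(A + 2), (G ∘ fun y : ℝ => y⁻¹) y * (-(y ^ 2)⁻¹) = ∫ x in A⁻¹..(A + 2)⁻¹, G x := by
    apply intervalIntegral.integral_comp_mul_deriv (f := fun y : ℝ => y⁻¹)
    · intro y hy
      exact hasDerivAt_inv (hpos y hy).ne'
    · apply ContinuousOn.neg
      apply ContinuousOn.inv₀ (by fun_prop)
      intro y hy
      exact (pow_pos (hpos y hy) 2).ne'
    · exact hGc
  rw [intervalIntegral.integral_symm]
  rw [← h1, ← intervalIntegral.integral_neg]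
  have h2 : ∫ y in A..(A + 2), -((G ∘ fun y : ℝ => y⁻¹) y * (-(y ^ 2)⁻¹)) ≤
      ∫ y in A..(A + 2), (A⁻¹) ^ (n + 2) * tr S β ω φ y ^ 2 := by
    apply intervalIntegral.integral_mono_on (by linarith)
    · apply ContinuousOn.intervalIntegrable
      apply ContinuousOn.neg
      apply ContinuousOn.mul
      · apply hGc.comp_continuousOn
        apply ContinuousOn.inv₀ continuousOn_id
        intro y hy; exact (hpos y hy).ne'
      · apply ContinuousOn.neg
        apply ContinuousOn.inv₀ (by fun_prop)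
        intro y hy
        exact (pow_pos (hpos y hy) 2).ne'
    · exact Continuous.intervalIntegrable (by have := tr_cont S β ω φ; fun_prop) _ _
    · intro y hy
      have hy0 : 0 < y := lt_of_lt_of_le hA hy.1
      simp only [Function.comp, hG, inv_inv]
      have h3 : y⁻¹ ≤ A⁻¹ := inv_anti₀ hA hy.1
      have h4 : (y⁻¹) ^ (n + 2) ≤ (A⁻¹) ^ (n + 2) := pow_le_pow_left₀ (by positivity) h3 _
      calc -((y⁻¹) ^ n * tr S β ω φ y ^ 2 * -(y ^ 2)⁻¹) = (y⁻¹) ^ (n + 2) * tr S β ω φ y ^ 2 := by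
            rw [pow_add, inv_pow y 2]; ring
        _ ≤ _ := mul_le_mul_of_nonneg_right h4 (sq_nonneg _)
  refine h2.trans ?_
  rw [intervalIntegral.integral_const_mul]
  exact mul_le_mul_of_nonneg_left (tr_cell hω A) (by positivity)

lemma core (hω : ∀ i ∈ S, |ω i - xx (cl i)| ≤ 1) (n : ℕ) (hn : n ≠ 0) :
    ∫ x in (0:ℝ)..(3/4), x ^ n * tr S β ω φ x⁻¹ ^ 2 ≤ 90 * (3/4) ^ n * QQ (fun _ => 1) S cl β := by
  set G : ℝ → ℝ := fun x => x ^ n * tr S β ω φ x⁻¹ ^ 2 with hG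
  set Q := QQ (fun _ => 1) S cl β with hQ
  set M := (∑ i ∈ S, |β i|) ^ 2 with hM
  have hQ0 : 0 ≤ Q := QQ_nonneg (fun _ => zero_le_one) S cl β
  have hbd : ∀ y, |tr S β ω φ y ^ 2| ≤ M := fun y => by
    rw [abs_pow]
    exact pow_le_pow_left₀ (abs_nonneg _) (tr_bd S β ω φ y) 2
  have hGc : Continuous G :=
    contX (h := fun y => tr S β ω φ y ^ 2) ((tr_cont S β ω φ).pow 2) (M := M) hbd hn
  set a : ℕ → ℝ := fun k => 4/3 + 2 * k with ha
  have ha0 : ∀ k, 4/3 ≤ a k := fun k => by simp only [ha]; have : (0:ℝ) ≤ k := Nat.cast_nonneg k; linarith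
  have key : ∀ K : ℕ, ∫ x in (a K)⁻¹..(3/4), G x ≤ 60 * Q * (3/4) ^ n * (3/2 - 1 / (2 * (a K - 1))) := by
    intro K
    induction K with
    | zero =>
      have : (a 0)⁻¹ = 3/4 := by simp only [ha]; norm_num
      rw [this, intervalIntegral.integral_same]
      have h2 : (3:ℝ)/2 - 1 / (2 * (a 0 - 1)) = 0 := by simp only [ha]; norm_num
      rw [h2, mul_zero]
    | succ K ih =>
      have e : a (K + 1) = a K + 2 := by simp only [ha]; push_cast; ring
      have hK := ha0 K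
      have h1 := seg (n := n) (φ := φ) (β := β) hω hn (A := a K) (by linarith)
      rw [← intervalIntegral.integral_add_adjacent_intervals (b := (a K)⁻¹)
        (hGc.intervalIntegrable _ _) (hGc.intervalIntegrable _ _), e]
      have h3 : ((a K)⁻¹) ^ (n + 2) ≤ (3/4) ^ n * (1 / (2 * (a K - 1)) - 1 / (2 * (a K + 2 - 1))) := by
        have h4 : ((a K)⁻¹) ^ n ≤ (3/4) ^ n := by
          apply pow_le_pow_left₀ (by positivity)
          rw [show (3:ℝ)/4 = (4/3)⁻¹ by norm_num]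
          exact inv_anti₀ (by norm_num) hK
        have h5 : ((a K)⁻¹) ^ 2 ≤ (1 / (2 * (a K - 1)) - 1 / (2 * (a K + 2 - 1))) := by
          have p1 : 0 < a K - 1 := by linarith
          have p2 : 0 < a K + 2 - 1 := by linarith
          have p3 : 0 < a K := by linarith
          rw [div_sub_div _ _ (by positivity) (by positivity), inv_pow, inv_eq_one_div,
            div_le_div_iff₀ (by positivity) (by positivity)]
          nlinarith
        rw [pow_add]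
        exact mul_le_mul h4 h5 (by positivity) (by positivity)
      have h6 : ((a K)⁻¹) ^ (n + 2) * (60 * Q) ≤
          (3/4) ^ n * (1 / (2 * (a K - 1)) - 1 / (2 * (a K + 2 - 1))) * (60 * Q) :=
        mul_le_mul_of_nonneg_right h3 (by positivity)
      have h7 : (∫ x in (a K + 2)⁻¹..(a K)⁻¹, G x) ≤ ((a K)⁻¹) ^ (n + 2) * (60 * Q) := h1
      nlinarith [ih, h6, h7]
  have hlim : Tendsto (fun K : ℕ => 90 * (3/4) ^ n * Q + M * (a K)⁻¹) atTop (𝓝 (90 * (3/4) ^ n * Q + M * 0)) := by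
    apply Tendsto.const_add
    apply Tendsto.const_mul
    apply Tendsto.inv_tendsto_atTop
    simp only [ha]
    apply tendsto_atTop_add_const_left
    exact Tendsto.const_mul_atTop (by norm_num) tendsto_natCast_atTop_atTop
  rw [mul_zero, add_zero] at hlim
  refine ge_of_tendsto' hlim fun K => ?_
  have hK := ha0 K
  have hp : 0 < (a K)⁻¹ := by positivity
  have hle1 : (a K)⁻¹ ≤ 1 := by
    rw [inv_le_one₀ (by linarith)]; linarith
  rw [← intervalIntegral.integral_add_adjacent_intervals (b := (a K)⁻¹)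
        (hGc.intervalIntegrable _ _) (hGc.intervalIntegrable _ _)]
  have h8 : ∫ x in (0:ℝ)..(a K)⁻¹, G x ≤ ∫ x in (0:ℝ)..(a K)⁻¹, M := by
    apply intervalIntegral.integral_mono_on hp.le (hGc.intervalIntegrable _ _)
      (by simp)
    intro x hx
    have h9 : x ^ n ≤ 1 := pow_le_one₀ hx.1 (hx.2.trans hle1)
    have h10 := le_of_abs_le (hbd x⁻¹)
    calc x ^ n * tr S β ω φ x⁻¹ ^ 2 ≤ 1 * tr S β ω φ x⁻¹ ^ 2 :=
          mul_le_mul_of_nonneg_right h9 (sq_nonneg _)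
      _ ≤ M := by rw [one_mul]; exact h10
  rw [intervalIntegral.integral_const, smul_eq_mul, sub_zero] at h8
  have h11 := key K
  have h12 : 60 * Q * (3/4) ^ n * (3/2 - 1 / (2 * (a K - 1))) ≤ 60 * Q * (3/4) ^ n * (3/2) := by
    apply mul_le_mul_of_nonneg_left _ (by positivity)
    have : 0 < 1 / (2 * (a K - 1)) := by
      have : 0 < a K - 1 := by linarith
      positivity
    linarith
  nlinarith

end core

lemma chi_cd : ContDiff ℝ 1 chi := by
  have h : ContDiff ℝ 1 (fun x : ℝ => 3 - 4 * x) := by fun_prop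
  exact (Real.smoothTransition.contDiff (n := 1)).comp h

lemma chi_hd (x : ℝ) : HasDerivAt chi (deriv chi x) x :=
  ((chi_cd.differentiable (by simp)) x).hasDerivAt

lemma chi_dc : Continuous (deriv chi) := chi_cd.continuous_deriv (le_refl _)

lemma chi_c : Continuous chi := chi_cd.continuous

lemma chi_nn (x : ℝ) : 0 ≤ chi x := Real.smoothTransition.nonneg _

lemma chi_le (x : ℝ) : chi x ≤ 1 := Real.smoothTransition.le_one _

lemma chi_z {x : ℝ} (h : 3/4 ≤ x) : chi x = 0 :=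
  Real.smoothTransition.zero_of_nonpos (by linarith)

lemma chi_dz {x : ℝ} (h : 3/4 ≤ x) : deriv chi x = 0 := by
  apply IsLocalMin.deriv_eq_zero
  apply Filter.Eventually.of_forall
  intro y
  rw [chi_z h]
  exact chi_nn y

lemma chi_bd : ∃ K : ℝ, 0 ≤ K ∧ ∀ x ∈ Set.Icc (0:ℝ) 2, |deriv chi x| ≤ K := by
  obtain ⟨K, hK⟩ := isCompact_Icc.exists_bound_of_continuousOn (s := Set.Icc (0:ℝ) 2)
    chi_dc.continuousOn
  exact ⟨max K 0, le_max_right _ _, fun x hx => (hK x hx).trans (le_max_left _ _)⟩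

section dual

variable (S : Finset ℕ) (cl : ℕ → ℕ) (β ω : ℕ → ℝ) (m : ℕ)

noncomputable def f0 : ℝ → ℝ := tr S β ω (fun _ => 0)
noncomputable def f1 : ℝ → ℝ := tr S (fun i => β i * ω i) ω (fun _ => Real.pi / 2)

lemma f0_eq : f0 S β ω = fun y => ∑ i ∈ S, β i * Real.cos (ω i * y) := by
  ext y
  unfold f0 tr
  simp

lemma f0_hd (y : ℝ) : HasDerivAt (f0 S β ω) (f1 S β ω y) y := by
  rw [f0_eq]
  unfold f1 tr
  apply HasDerivAt.fun_sum
  intro i _
  have h := (((hasDerivAt_id y).const_mul (ω i)).cos).const_mul (β i)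
  simp only [id, mul_one] at h
  refine h.congr_deriv ?_
  rw [Real.cos_add_pi_div_two]
  ring

/-- derivative of `DD m f0` -/
noncomputable def Dp (x : ℝ) : ℝ :=
  deriv chi x * (x ^ (2 * m) * f0 S β ω x⁻¹) +
    chi x * (2 * m * (x ^ (2 * m - 1) * f0 S β ω x⁻¹) - x ^ (2 * m - 2) * f1 S β ω x⁻¹)

variable {m}

lemma Dp_cont (hm : 2 ≤ m) : Continuous (Dp S β ω m) := by
  have a1 := contX (tr_cont S β ω (fun _ => 0)) (tr_bd S β ω (fun _ => 0)) (n := 2 * m) (by omega)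
  have a2 := contX (tr_cont S β ω (fun _ => 0)) (tr_bd S β ω (fun _ => 0)) (n := 2 * m - 1) (by omega)
  have a3 := contX (tr_cont S (fun i => β i * ω i) ω (fun _ => Real.pi / 2))
    (tr_bd S (fun i => β i * ω i) ω (fun _ => Real.pi / 2)) (n := 2 * m - 2) (by omega)
  have c1 := chi_c
  have c2 := chi_dc
  unfold Dp
  exact (c2.mul a1).add (c1.mul ((a2.const_mul _).sub a3))

lemma DD_cont (hm : 2 ≤ m) : Continuous (DD m (f0 S β ω)) := by
  have a1 := contX (tr_cont S β ω (fun _ => 0)) (tr_bd S β ω (fun _ => 0)) (n := 2 * m) (by omega)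
  have : DD m (f0 S β ω) = fun x => chi x * (x ^ (2 * m) * f0 S β ω x⁻¹) := by
    ext x; unfold DD; ring
  rw [this]
  exact chi_c.mul a1

lemma DD_hd (hm : 2 ≤ m) (x : ℝ) : HasDerivAt (DD m (f0 S β ω)) (Dp S β ω m x) x := by
  have e : DD m (f0 S β ω) = fun x => chi x * (x ^ (2 * m) * f0 S β ω x⁻¹) := by
    ext x; unfold DD; ring
  rw [e]
  unfold Dp
  apply (chi_hd x).mul
  by_cases hx : x = 0
  · subst hx
    have := derX0 (tr_cont S β ω (fun _ => 0)) (tr_bd S β ω (fun _ => 0)) (n := 2 * m) (by omega)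
    refine HasDerivAt.congr_deriv this ?_
    have h1 : 2 * m - 1 ≠ 0 := by omega
    have h2 : 2 * m - 2 ≠ 0 := by omega
    simp [h1, h2]
  · have h1 : HasDerivAt (fun x : ℝ => f0 S β ω x⁻¹) (f1 S β ω x⁻¹ * (-(x ^ 2)⁻¹)) x :=
      (f0_hd S β ω x⁻¹).comp x (hasDerivAt_inv hx)
    have h2 := (hasDerivAt_pow (2 * m) x).mul h1
    refine HasDerivAt.congr_deriv (f := fun x => x ^ (2 * m) * f0 S β ω x⁻¹) h2 ?_
    have h3 : x ^ (2 * m) = x ^ (2 * m - 2) * x ^ 2 := by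
      rw [← pow_add]; congr 1; omega
    rw [h3]
    push_cast
    field_simp
    ring

lemma int_cut {g : ℝ → ℝ} (hg : Continuous g) (hz : ∀ x, 3/4 ≤ x → g x = 0) :
    ∫ t in (0:ℝ)..2, g t = ∫ t in (0:ℝ)..(3/4), g t := by
  rw [← intervalIntegral.integral_add_adjacent_intervals (b := 3/4)
    (hg.intervalIntegrable _ _) (hg.intervalIntegrable _ _)]
  have : ∫ t in (3/4:ℝ)..2, g t = ∫ t in (3/4:ℝ)..2, (0:ℝ) := by
    apply intervalIntegral.integral_congr
    intro x hx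
    rw [Set.uIcc_of_le (by norm_num)] at hx
    exact hz x hx.1
  rw [this]
  simp

variable {S cl β ω}

lemma DD_int (hω : ∀ i ∈ S, |ω i - xx (cl i)| ≤ 1) (hm : 2 ≤ m) :
    ∫ t in (0:ℝ)..2, DD m (f0 S β ω) t ^ 2 ≤ 90 * (3/4) ^ (4 * m) * QQ (fun _ => 1) S cl β := by
  have hc := DD_cont S β ω hm
  rw [int_cut (g := fun t => DD m (f0 S β ω) t ^ 2) (by fun_prop) (fun x hx => by
    unfold DD; rw [chi_z hx]; simp)]
  refine le_trans ?_ (core (φ := fun _ => 0) (β := β) hω (4 * m) (by omega))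
  have b1 := contX (h := fun y => tr S β ω (fun _ => 0) y ^ 2) ((tr_cont S β ω (fun _ => 0)).pow 2)
    (M := (∑ i ∈ S, |β i|) ^ 2) (fun y => by
    rw [abs_pow]
    exact pow_le_pow_left₀ (abs_nonneg _) (tr_bd S β ω (fun _ => 0) y) 2) (n := 4 * m) (by omega)
  apply intervalIntegral.integral_mono_on (by norm_num)
    (Continuous.intervalIntegrable (by fun_prop) _ _) (b1.intervalIntegrable _ _)
  intro x hx
  have h1 : DD m (f0 S β ω) x ^ 2 = chi x ^ 2 * (x ^ (4 * m) * tr S β ω (fun _ => 0) x⁻¹ ^ 2) := by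
    unfold DD f0
    rw [show 4 * m = 2 * m * 2 by ring, pow_mul x (2 * m) 2]
    ring
  rw [h1]
  apply mul_le_of_le_one_left
  · have : 0 ≤ x := hx.1
    positivity
  · exact pow_le_one₀ (chi_nn x) (chi_le x)

lemma om_bd (hω : ∀ i ∈ S, |ω i - xx (cl i)| ≤ 1) {i : ℕ} (hi : i ∈ S) :
    |ω i| ≤ 2 * (1 + cl i) := by
  have h := hω i hi
  have h1 : |ω i| ≤ |ω i - xx (cl i)| + |xx (cl i)| := by
    have := abs_add_le (ω i - xx (cl i)) (xx (cl i))
    simpa using this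
  have h2 : |xx (cl i)| ≤ 2 * cl i := by
    unfold xx
    rw [abs_mul, abs_of_pos (by positivity), Nat.abs_cast]
    have := Real.pi_le_four
    have h0 : (0:ℝ) ≤ cl i := Nat.cast_nonneg _
    nlinarith
  linarith

lemma QQ_w (hω : ∀ i ∈ S, |ω i - xx (cl i)| ≤ 1) :
    QQ (fun _ => 1) S cl (fun i => β i * ω i) ≤ 4 * QQ (fun y => (1 + (y : ℝ)) ^ 2) S cl β := by
  unfold QQ
  rw [mul_sum]
  apply sum_le_sum
  intro y _
  have h1 : ∑ i ∈ S.filter (fun i => cl i = y), |β i * ω i| ≤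
      2 * (1 + y) * ∑ i ∈ S.filter (fun i => cl i = y), |β i| := by
    rw [mul_sum]
    apply sum_le_sum
    intro i hi
    rw [mem_filter] at hi
    have := om_bd hω hi.1
    rw [hi.2] at this
    rw [abs_mul, mul_comm]
    exact mul_le_mul_of_nonneg_right this (abs_nonneg _)
  have h0 : 0 ≤ ∑ i ∈ S.filter (fun i => cl i = y), |β i * ω i| := sum_nonneg fun i _ => abs_nonneg _
  have h2 := pow_le_pow_left₀ h0 h1 2
  calc 1 * (∑ i ∈ S.filter (fun i => cl i = y), |β i * ω i|) ^ 2 ≤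
      (2 * (1 + y) * ∑ i ∈ S.filter (fun i => cl i = y), |β i|) ^ 2 := by rw [one_mul]; exact h2
    _ = _ := by ring

lemma QQ_1w : QQ (fun _ => 1) S cl β ≤ QQ (fun y => (1 + (y : ℝ)) ^ 2) S cl β := by
  unfold QQ
  apply sum_le_sum
  intro y _
  apply mul_le_mul_of_nonneg_right _ (sq_nonneg _)
  have : (0:ℝ) ≤ y := Nat.cast_nonneg y
  nlinarith

lemma Dp_int (hω : ∀ i ∈ S, |ω i - xx (cl i)| ≤ 1) (hm : 2 ≤ m) {K : ℝ} (hK0 : 0 ≤ K)
    (hK : ∀ x ∈ Set.Icc (0:ℝ) 2, |deriv chi x| ≤ K) :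
    ∫ t in (0:ℝ)..2, Dp S β ω m t ^ 2 ≤
      (2 * (K + 2 * m) ^ 2 * (90 * (3/4) ^ (4 * m - 2)) + 2 * (90 * (3/4) ^ (4 * m - 4)) * 4) *
        QQ (fun y => (1 + (y : ℝ)) ^ 2) S cl β := by
  have hc := Dp_cont S β ω hm
  rw [int_cut (g := fun t => Dp S β ω m t ^ 2) (by fun_prop) (fun x hx => by
    unfold Dp; rw [chi_z hx, chi_dz hx]; simp)]
  have k1 := core (φ := fun _ => 0) (β := β) hω (4 * m - 2) (by omega)
  have k2 := core (φ := fun _ => Real.pi / 2) (β := fun i => β i * ω i) hω (4 * m - 4) (by omega)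
  have b1 := contX (h := fun y => tr S β ω (fun _ => 0) y ^ 2) ((tr_cont S β ω (fun _ => 0)).pow 2)
    (M := (∑ i ∈ S, |β i|) ^ 2) (fun y => by
    rw [abs_pow]
    exact pow_le_pow_left₀ (abs_nonneg _) (tr_bd S β ω (fun _ => 0) y) 2) (n := 4 * m - 2) (by omega)
  have b2 := contX (h := fun y => tr S (fun i => β i * ω i) ω (fun _ => Real.pi / 2) y ^ 2)
    ((tr_cont S (fun i => β i * ω i) ω (fun _ => Real.pi / 2)).pow 2)
    (M := (∑ i ∈ S, |β i * ω i|) ^ 2) (fun y => by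
    rw [abs_pow]
    exact pow_le_pow_left₀ (abs_nonneg _) (tr_bd S (fun i => β i * ω i) ω (fun _ => Real.pi / 2) y) 2)
    (n := 4 * m - 4) (by omega)
  have h1 : ∫ t in (0:ℝ)..(3/4), Dp S β ω m t ^ 2 ≤ ∫ x in (0:ℝ)..(3/4),
      (2 * (K + 2 * m) ^ 2 * (x ^ (4 * m - 2) * tr S β ω (fun _ => 0) x⁻¹ ^ 2) +
        2 * (x ^ (4 * m - 4) * tr S (fun i => β i * ω i) ω (fun _ => Real.pi / 2) x⁻¹ ^ 2)) := by
    apply intervalIntegral.integral_mono_on (by norm_num)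
      (Continuous.intervalIntegrable (by fun_prop) _ _)
      (Continuous.intervalIntegrable ((b1.const_mul _).add (b2.const_mul _)) _ _)
    intro x hx
    have hx0 : 0 ≤ x := hx.1
    have hx1 : x ≤ 1 := hx.2.trans (by norm_num)
    have hm0 : (0:ℝ) ≤ m := Nat.cast_nonneg m
    set F := tr S β ω (fun _ => 0) x⁻¹ with hF
    set F1 := tr S (fun i => β i * ω i) ω (fun _ => Real.pi / 2) x⁻¹ with hF1
    have e1 : x ^ (4 * m - 2) = (x ^ (2 * m - 1)) ^ 2 := by rw [← pow_mul]; congr 1; omega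
    have e2 : x ^ (4 * m - 4) = (x ^ (2 * m - 2)) ^ 2 := by rw [← pow_mul]; congr 1; omega
    have e3 : x ^ (2 * m) = x ^ (2 * m - 1) * x := by rw [← pow_succ]; congr 1; omega
    have hD : Dp S β ω m x = (deriv chi x * x + chi x * (2 * m)) * (x ^ (2 * m - 1) * F) +
        (-(chi x)) * (x ^ (2 * m - 2) * F1) := by
      unfold Dp f0 f1
      rw [← hF, ← hF1, e3]; ring
    have hA : |deriv chi x * x + chi x * (2 * m)| ≤ K + 2 * m := by
      refine (abs_add_le _ _).trans ?_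
      rw [abs_mul, abs_mul, abs_of_nonneg hx0, abs_of_nonneg (chi_nn x), abs_of_nonneg (by positivity : (0:ℝ) ≤ 2 * m)]
      have q1 : |deriv chi x| * x ≤ K * 1 :=
        mul_le_mul (hK x ⟨hx0, hx1.trans (by norm_num)⟩) hx1 hx0 hK0
      have q2 : chi x * (2 * m) ≤ 1 * (2 * m) := mul_le_mul_of_nonneg_right (chi_le x) (by positivity)
      linarith
    have hA2 : (deriv chi x * x + chi x * (2 * m)) ^ 2 ≤ (K + 2 * m) ^ 2 := by
      rw [← sq_abs]
      exact pow_le_pow_left₀ (abs_nonneg _) hA 2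
    have hB2 : (-(chi x)) ^ 2 ≤ 1 := by
      rw [neg_sq]; exact pow_le_one₀ (chi_nn x) (chi_le x)
    set A := deriv chi x * x + chi x * (2 * m)
    set B := -(chi x)
    set u := x ^ (2 * m - 1) * F with hu
    set v := x ^ (2 * m - 2) * F1 with hv
    have g1 : (A * u + B * v) ^ 2 ≤ 2 * (A ^ 2 * u ^ 2) + 2 * (B ^ 2 * v ^ 2) := by
      nlinarith [sq_nonneg (A * u - B * v)]
    have g2 : A ^ 2 * u ^ 2 ≤ (K + 2 * m) ^ 2 * u ^ 2 := mul_le_mul_of_nonneg_right hA2 (sq_nonneg _)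
    have g3 : B ^ 2 * v ^ 2 ≤ 1 * v ^ 2 := mul_le_mul_of_nonneg_right hB2 (sq_nonneg _)
    have g4 : u ^ 2 = x ^ (4 * m - 2) * F ^ 2 := by rw [hu, e1]; ring
    have g5 : v ^ 2 = x ^ (4 * m - 4) * F1 ^ 2 := by rw [hv, e2]; ring
    show Dp S β ω m x ^ 2 ≤ 2 * (K + 2 * m) ^ 2 * (x ^ (4 * m - 2) * F ^ 2) +
        2 * (x ^ (4 * m - 4) * F1 ^ 2)
    rw [hD, ← g4, ← g5]
    nlinarith
  rw [intervalIntegral.integral_add ((b1.const_mul _).intervalIntegrable _ _)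
    ((b2.const_mul _).intervalIntegrable _ _), intervalIntegral.integral_const_mul,
    intervalIntegral.integral_const_mul] at h1
  have q1 := QQ_w (β := β) hω
  have q2 := QQ_1w (S := S) (cl := cl) (β := β)
  set W := QQ (fun y => (1 + (y : ℝ)) ^ 2) S cl β
  have p1 : (0:ℝ) ≤ (3/4) ^ (4 * m - 2) := by positivity
  have p2 : (0:ℝ) ≤ (3/4) ^ (4 * m - 4) := by positivity
  have r1 : ∫ x in (0:ℝ)..(3/4), x ^ (4 * m - 2) * tr S β ω (fun _ => 0) x⁻¹ ^ 2 ≤
      90 * (3/4) ^ (4 * m - 2) * W :=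
    k1.trans (mul_le_mul_of_nonneg_left q2 (by positivity))
  have r2 : ∫ x in (0:ℝ)..(3/4), x ^ (4 * m - 4) * tr S (fun i => β i * ω i) ω (fun _ => Real.pi / 2) x⁻¹ ^ 2 ≤
      90 * (3/4) ^ (4 * m - 4) * (4 * W) :=
    k2.trans (mul_le_mul_of_nonneg_left q1 (by positivity))
  have r3 := mul_le_mul_of_nonneg_left r1 (by positivity : (0:ℝ) ≤ 2 * (K + 2 * m) ^ 2)
  linarith

end dual

lemma small (K : ℝ) {κ : ℝ} (hκ : 0 < κ) : ∃ m₀ : ℕ, ∀ m : ℕ, m₀ ≤ m →
    2 * (90 * (3/4:ℝ) ^ (4 * m)) + 2 * (2 * (K + 2 * m) ^ 2 * (90 * (3/4) ^ (4 * m - 2)) +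
      2 * (90 * (3/4) ^ (4 * m - 4)) * 4) * 3 ≤ κ := by
  have hr : |((3:ℝ)/4) ^ 4| < 1 := by norm_num [abs_of_pos]
  have t0 := tendsto_pow_const_mul_const_pow_of_abs_lt_one 0 hr
  have t1 := tendsto_pow_const_mul_const_pow_of_abs_lt_one 1 hr
  have t2 := tendsto_pow_const_mul_const_pow_of_abs_lt_one 2 hr
  have t := ((t0.const_mul (180 + 1080 * K ^ 2 * (16/9) + 4320 * (256/81))).add
    ((t1.const_mul (4320 * K * (16/9))).add (t2.const_mul (4320 * (16/9)))))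
  simp only [mul_zero, add_zero] at t
  obtain ⟨m₁, h⟩ := Filter.eventually_atTop.1 (t.eventually (gt_mem_nhds hκ))
  refine ⟨max m₁ 1, fun m hm => ?_⟩
  have hm1 := h m ((le_max_left _ _).trans hm)
  have hm2 : 1 ≤ m := (le_max_right _ _).trans hm
  have e1 : ((3:ℝ)/4) ^ (4 * m - 2) = (16/9) * ((3/4) ^ 4) ^ m := by
    have : ((3:ℝ)/4) ^ (4 * m) = (3/4) ^ (4 * m - 2) * (3/4) ^ 2 := by
      rw [← pow_add]; congr 1; omega
    rw [← pow_mul, this]; ring
  have e2 : ((3:ℝ)/4) ^ (4 * m - 4) = (256/81) * ((3/4) ^ 4) ^ m := by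
    have : ((3:ℝ)/4) ^ (4 * m) = (3/4) ^ (4 * m - 4) * (3/4) ^ 4 := by
      rw [← pow_add]; congr 1; omega
    rw [← pow_mul, this]; ring
  have e3 : ((3:ℝ)/4) ^ (4 * m) = ((3/4) ^ 4) ^ m := by rw [← pow_mul]
  rw [e1, e2, e3]
  simp only [pow_zero, pow_one, one_mul] at hm1
  refine le_trans (le_of_eq ?_) hm1.le
  ring

theorem taskM : TaskM := by
  intro κ hκ
  obtain ⟨K, hK0, hK⟩ := chi_bd
  obtain ⟨m₁, hm₁⟩ := small K hκ
  refine ⟨max m₁ 2, fun m hm S cl ω β hω => ?_⟩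
  have hm2 : 2 ≤ m := (le_max_right _ _).trans hm
  have hs := hm₁ m ((le_max_left _ _).trans hm)
  have hf : (fun y => ∑ i ∈ S, β i * Real.cos (ω i * y)) = f0 S β ω := (f0_eq S β ω).symm
  rw [hf]
  have i1 := DD_int (β := β) hω hm2
  have i2 := Dp_int (β := β) hω hm2 hK0 hK
  have q1 := QQ_nonneg (w := fun _ => 1) (fun _ => zero_le_one) S cl β
  have q2 := QQ_1w (S := S) (cl := cl) (β := β)
  have pa : (0:ℝ) ≤ (3/4) ^ (4 * m) := by positivity
  have pb : (0:ℝ) ≤ 2 * (K + 2 * m) ^ 2 * (90 * (3/4) ^ (4 * m - 2)) + 2 * (90 * (3/4) ^ (4 * m - 4)) * 4 := by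
    positivity
  constructor
  · intro J
    refine (bessel (DD_cont S β ω hm2) (range J)).trans (i1.trans ?_)
    apply mul_le_mul_of_nonneg_right _ q1
    linarith
  · intro J
    have b1 := bessel (DD_cont S β ω hm2) (range J)
    have b2 := bessel_deriv (DD_hd S β ω hm2) (Dp_cont S β ω hm2) (range J)
    have h1 : ∑ j ∈ range J, (1 + (j : ℝ)) ^ 2 * PP (DD m (f0 S β ω)) j ^ 2 ≤
        2 * ∑ j ∈ range J, PP (DD m (f0 S β ω)) j ^ 2 +
          2 * ∑ j ∈ range J, xx j ^ 2 * PP (DD m (f0 S β ω)) j ^ 2 := by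
      rw [mul_sum, mul_sum, ← sum_add_distrib]
      apply sum_le_sum
      intro j _
      have hj : (j:ℝ) ^ 2 ≤ xx j ^ 2 := by
        unfold xx
        apply pow_le_pow_left₀ (Nat.cast_nonneg j)
        have := Real.pi_gt_three
        have h0 : (0:ℝ) ≤ j := Nat.cast_nonneg _
        nlinarith
      have hp := sq_nonneg (PP (DD m (f0 S β ω)) j)
      nlinarith [sq_nonneg ((j:ℝ) - 1)]
    set W := QQ (fun y => (1 + (y : ℝ)) ^ 2) S cl β
    have hW : 0 ≤ W := q1.trans q2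
    have i1' : ∫ t in (0:ℝ)..2, DD m (f0 S β ω) t ^ 2 ≤ 90 * (3/4) ^ (4 * m) * W :=
      i1.trans (mul_le_mul_of_nonneg_left q2 (by positivity))
    have := mul_le_mul_of_nonneg_right hs hW
    nlinarith

end Pool.Agent.H99R3.M469
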