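import Pool.Agent.H99R3.Ex680H

open MeasureTheory Polynomial Set

namespace Pool.Agent.H99R3.EX

open Pool.Agent.Helper404 (toP castQ kmC)
open Pool.Agent.H680R3.EX

/-- the matrix of the images of the standard basis under `TT` (rows) -/
noncomputable def MT (n : ℕ) (X z : ℝ) : Matrix (Fin (n + 1)) (Fin (n + 1)) ℝ :=
  Matrix.of fun j i => if i = 0 then X ^ n * z ^ (j : ℕ) else if i = j then 1 / X else 0

lemma MT_det (n : ℕ) {X : ℝ} (z : ℝ) (hX : 0 < X) : (MT n X z).det = 1 := by
  have hlow : (MT n X z).IsLowerTriangular := by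
    intro i j hij
    simp only [OrderDual.toDual_lt_toDual] at hij
    simp only [MT, Matrix.of_apply]
    have h0 : j ≠ 0 := by
      rintro rfl
      exact absurd hij (Fin.not_lt_zero _)
    rw [if_neg h0, if_neg (ne_of_gt hij)]
  rw [Matrix.det_of_isLowerTriangular _ hlow, Fin.prod_univ_succ]
  have h1 : ∀ i : Fin n, MT n X z i.succ i.succ = 1 / X := by
    intro i
    simp [MT, Fin.succ_ne_zero]
  simp only [h1, Finset.prod_const, Finset.card_univ, Fintype.card_fin]
  simp only [MT, Matrix.of_apply, if_true, Fin.val_zero, pow_zero, mul_one]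
  rw [one_div, inv_pow, mul_inv_cancel₀ (by positivity)]

/-- the basis of the lattice -/
noncomputable def bT (n : ℕ) (X z : ℝ) (hX : 0 < X) : Module.Basis (Fin (n + 1)) ℝ (Fin (n + 1) → ℝ) :=
  basisOfLinearIndependentOfCardEqFinrank (b := fun j => MT n X z j)
    (Matrix.linearIndependent_rows_of_det_ne_zero (A := MT n X z) (by rw [MT_det n z hX]; exact one_ne_zero))
    (by simp)

lemma bT_apply (n : ℕ) (X z : ℝ) (hX : 0 < X) (j : Fin (n + 1)) : bT n X z hX j = MT n X z j := by
  simp [bT]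

lemma TT_eq_sum {n : ℕ} (X z : ℝ) (x : Fin (n + 1) → ℝ) :
    TT n X z x = ∑ j, x j • (fun i => MT n X z j i) := by
  ext i
  rw [Finset.sum_apply]
  simp only [Pi.smul_apply, smul_eq_mul, MT, Matrix.of_apply, TT]
  by_cases h : i = 0
  · simp only [h, if_true]
    rw [Finset.mul_sum]
    refine Finset.sum_congr rfl fun j _ => ?_
    ring
  · simp only [h, if_false]
    rw [Finset.sum_eq_single i]
    · simp [div_eq_mul_inv]
    · intro j _ hj
      rw [if_neg (Ne.symm hj), mul_zero]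
    · intro h; exact absurd (Finset.mem_univ _) h

lemma mem_span_iff {n : ℕ} {X z : ℝ} (hX : 0 < X) (y : Fin (n + 1) → ℝ) :
    y ∈ Submodule.span ℤ (Set.range (bT n X z hX)) ↔ ∃ v : Fin (n + 1) → ℤ, y = TT n X z (cR v) := by
  rw [Submodule.mem_span_range_iff_exists_fun]
  constructor
  · rintro ⟨v, hv⟩
    refine ⟨v, ?_⟩
    rw [← hv, TT_eq_sum]
    refine Finset.sum_congr rfl fun j _ => ?_
    rw [bT_apply]
    ext i
    simp [cR]
  · rintro ⟨v, hv⟩
    refine ⟨v, ?_⟩
    rw [hv, TT_eq_sum]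
    refine Finset.sum_congr rfl fun j _ => ?_
    rw [bT_apply]
    ext i
    simp [cR]

lemma cR_add {n : ℕ} (u v : Fin (n + 1) → ℤ) : cR (u + v) = cR u + cR v := by
  ext i; simp [cR]

lemma cR_sub {n : ℕ} (u v : Fin (n + 1) → ℤ) : cR (u - v) = cR u - cR v := by
  ext i; simp [cR]

/-- the lattice as a set -/
def Lam (n : ℕ) (X z : ℝ) : Set (Fin (n + 1) → ℝ) := Set.range (fun v : Fin (n + 1) → ℤ => TT n X z (cR v))

lemma Lam_ne (n : ℕ) (X z : ℝ) : (Lam n X z).Nonempty := ⟨_, ⟨0, rfl⟩⟩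

lemma infDist_add {n : ℕ} (X z : ℝ) (x : Fin (n + 1) → ℝ) (v : Fin (n + 1) → ℤ) :
    Metric.infDist (x + TT n X z (cR v)) (Lam n X z) = Metric.infDist x (Lam n X z) := by
  have key : ∀ (x : Fin (n + 1) → ℝ) (v : Fin (n + 1) → ℤ),
      Metric.infDist (x + TT n X z (cR v)) (Lam n X z) ≤ Metric.infDist x (Lam n X z) := by
    intro x v
    rw [Metric.le_infDist (Lam_ne n X z)]
    rintro _ ⟨w, rfl⟩
    have h1 : TT n X z (cR (w + v)) ∈ Lam n X z := ⟨w + v, rfl⟩
    refine (Metric.infDist_le_dist_of_mem h1).trans ?_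
    rw [cR_add, TT_add, dist_add_right]
  refine le_antisymm (key x v) ?_
  have h := key (x + TT n X z (cR v)) (-v)
  have e : x + TT n X z (cR v) + TT n X z (cR (-v)) = x := by
    rw [add_assoc, ← TT_add, ← cR_add, add_neg_cancel]
    have : TT n X z (cR (0 : Fin (n + 1) → ℤ)) = 0 := by
      ext i; simp [TT, cR]
    rw [this, add_zero]
  rwa [e] at h

/-- covering radius bound (sup norm) -/
lemma covering {n : ℕ} {c X z : ℝ} (hc : 0 < c) (hz : |z| ≤ 2) (hX : 1 ≤ X) (hT : Tight n c X z)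
    (q : Fin (n + 1) → ℝ) :
    Metric.infDist q (Lam n X z) ≤ ((c / 2 ^ (n + 1)) ^ n)⁻¹ := by
  have hX0 : 0 < X := by linarith
  set δ : ℝ := c / 2 ^ (n + 1) with hδ
  have hδ0 : 0 < δ := by positivity
  by_contra hcon
  push Not at hcon
  set R := (δ ^ n)⁻¹ with hR
  have hR0 : 0 < R := by positivity
  -- the distance function along the segment
  let f : ℝ → ℝ := fun s => Metric.infDist (s • q) (Lam n X z)
  have hf : Continuous f := (Metric.continuous_infDist_pt _).comp (continuous_id.smul continuous_const)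
  have hf0 : f 0 = 0 := by
    have h0 : (0 : Fin (n + 1) → ℝ) ∈ Lam n X z := ⟨0, by ext i; simp [TT, cR]⟩
    simp only [f, zero_smul]
    exact Metric.infDist_zero_of_mem h0
  have hf1 : R < f 1 := by simpa [f] using hcon
  set m : ℕ := ⌊R / δ⌋₊ with hm
  have hmR : ∀ i : ℕ, i ≤ m → (i : ℝ) * δ ≤ R := by
    intro i hi
    have h1 : (i : ℝ) ≤ R / δ := by
      have : (i : ℝ) ≤ m := by exact_mod_cast hi
      exact this.trans (Nat.floor_le (by positivity))
    rwa [le_div_iff₀ hδ0] at h1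
  have hex : ∀ i : ℕ, ∃ s : ℝ, i ≤ m → f s = i * δ := by
    intro i
    by_cases hi : i ≤ m
    · have h1 : (i : ℝ) * δ ∈ Icc (f 0) (f 1) := by
        rw [hf0]
        exact ⟨by positivity, (hmR i hi).trans hf1.le⟩
      obtain ⟨s, _, hs⟩ := intermediate_value_Icc (zero_le_one) hf.continuousOn h1
      exact ⟨s, fun _ => hs⟩
    · exact ⟨0, fun h => absurd h hi⟩
  choose s hs using hex
  let B : ℕ → Set (Fin (n + 1) → ℝ) := fun i => Metric.ball (s i • q) (δ / 2)
  have hdist : ∀ i ≤ m, ∀ x ∈ B i, |Metric.infDist x (Lam n X z) - i * δ| < δ / 2 := by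
    intro i hi x hx
    rw [← hs i hi]
    have h1 : |Metric.infDist x (Lam n X z) - Metric.infDist (s i • q) (Lam n X z)|
        ≤ dist x (s i • q) := by
      have := (Metric.lipschitz_infDist_pt (Lam n X z)).dist_le_mul x (s i • q)
      simpa [Real.dist_eq] using this
    exact lt_of_le_of_lt h1 hx
  have hidx : ∀ i ≤ m, ∀ j ≤ m, ∀ x ∈ B i, ∀ y ∈ B j,
      Metric.infDist x (Lam n X z) = Metric.infDist y (Lam n X z) → i = j := by
    intro i hi j hj x hx y hy hxy
    have h1 := hdist i hi x hx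
    have h2 := hdist j hj y hy
    rw [hxy] at h1
    have h3 : |(i : ℝ) * δ - j * δ| < δ := by
      rw [abs_lt] at h1 h2 ⊢
      constructor <;> linarith [h1.1, h1.2, h2.1, h2.2]
    rw [← sub_mul, abs_mul, abs_of_pos hδ0] at h3
    have h4 : |(i : ℝ) - j| < 1 := by
      by_contra h5
      push Not at h5
      nlinarith
    have h5 : |(i : ℤ) - j| < 1 := by exact_mod_cast h4
    rw [Int.abs_lt_one_iff] at h5
    omega
  -- the union
  let S : Set (Fin (n + 1) → ℝ) := ⋃ i ∈ Finset.range (m + 1), B i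
  have hSm : MeasurableSet S :=
    Finset.measurableSet_biUnion _ (fun i _ => measurableSet_ball)
  have hvolB : ∀ i, volume (B i) = ENNReal.ofReal (δ ^ (n + 1)) := by
    intro i
    have h := Real.volume_pi_ball (s i • q) (half_pos hδ0)
    simp only [B]
    rw [h]
    congr 1
    rw [Fintype.card_fin]
    congr 1
    ring
  have hvolS : volume S = ENNReal.ofReal ((m + 1) * δ ^ (n + 1)) := by
    simp only [S]
    rw [measure_biUnion_finset]
    · simp only [hvolB, Finset.sum_const, Finset.card_range, nsmul_eq_mul]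
      rw [ENNReal.ofReal_mul (by positivity)]
      congr 1
      rw [ENNReal.ofReal_add (by positivity) zero_le_one]
      simp
    · intro i hi j hj hij
      rw [Function.onFun, Set.disjoint_left]
      intro x hxi hxj
      apply hij
      simp only [Finset.coe_range, mem_Iio] at hi hj
      exact hidx i (by omega) j (by omega) x hxi x hxj rfl
    · intro i _
      exact measurableSet_ball
  have hone : (1 : ℝ) < (m + 1) * δ ^ (n + 1) := by
    have h1 : R / δ < m + 1 := Nat.lt_floor_add_one _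
    have h2 : R / δ * δ ^ (n + 1) = 1 := by
      rw [hR, pow_succ]; field_simp
    calc (1 : ℝ) = R / δ * δ ^ (n + 1) := h2.symm
      _ < (m + 1) * δ ^ (n + 1) := mul_lt_mul_of_pos_right h1 (by positivity)
  have hfund := ZSpan.isAddFundamentalDomain (bT n X z hX0) (volume : Measure (Fin (n + 1) → ℝ))
  have hvolF : volume (ZSpan.fundamentalDomain (bT n X z hX0)) = 1 := by
    rw [ZSpan.volume_fundamentalDomain]
    have : Matrix.of (bT n X z hX0) = MT n X z := by
      ext j i
      rw [Matrix.of_apply, bT_apply]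
    rw [this, MT_det n z hX0]
    simp
  have hlt : volume (ZSpan.fundamentalDomain (bT n X z hX0)) < volume S := by
    rw [hvolF, hvolS, ← ENNReal.ofReal_one]
    exact (ENNReal.ofReal_lt_ofReal_iff (by positivity)).2 hone
  haveI hcount : Countable (Submodule.span ℤ (Set.range (bT n X z hX0))) := by
    have : (Submodule.span ℤ (Set.range (bT n X z hX0)) : Set (Fin (n + 1) → ℝ)) ⊆ Lam n X z := by
      intro y hy
      obtain ⟨v, hv⟩ := (mem_span_iff hX0 y).1 hy
      exact ⟨v, hv.symm⟩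
    exact ((Set.countable_range _).mono this).to_subtype
  haveI hinv : VAddInvariantMeasure (Submodule.span ℤ (Set.range (bT n X z hX0)))
      (Fin (n + 1) → ℝ) volume :=
    inferInstanceAs <| VAddInvariantMeasure
      (Submodule.span ℤ (Set.range (bT n X z hX0))).toAddSubgroup (Fin (n + 1) → ℝ) volume
  haveI hmv : MeasurableVAdd (Submodule.span ℤ (Set.range (bT n X z hX0))) (Fin (n + 1) → ℝ) :=
    inferInstanceAs <| MeasurableVAdd
      (Submodule.span ℤ (Set.range (bT n X z hX0))).toAddSubgroup (Fin (n + 1) → ℝ)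
  obtain ⟨x, y, hxy, hnd⟩ := exists_pair_mem_lattice_not_disjoint_vadd
    (L := (Submodule.span ℤ (Set.range (bT n X z hX0)))) hfund hSm.nullMeasurableSet hlt
  rw [Set.not_disjoint_iff] at hnd
  obtain ⟨w, ⟨p1, hp1, hw1⟩, ⟨p2, hp2, hw2⟩⟩ := hnd
  obtain ⟨vx, hvx⟩ := (mem_span_iff hX0 (x : Fin (n + 1) → ℝ)).1 x.2
  obtain ⟨vy, hvy⟩ := (mem_span_iff hX0 (y : Fin (n + 1) → ℝ)).1 y.2
  have hw1' : (x : Fin (n + 1) → ℝ) + p1 = w := hw1
  have hw2' : (y : Fin (n + 1) → ℝ) + p2 = w := hw2
  have hp12 : p1 = p2 + TT n X z (cR (vy - vx)) := by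
    rw [cR_sub, TT_sub, ← hvx, ← hvy]
    have : p1 = w - x := by rw [← hw1']; abel
    rw [this, ← hw2']; abel
  have hd12 : Metric.infDist p1 (Lam n X z) = Metric.infDist p2 (Lam n X z) := by
    rw [hp12, infDist_add]
  simp only [S, mem_iUnion, Finset.mem_range] at hp1 hp2
  obtain ⟨i, hi, hp1i⟩ := hp1
  obtain ⟨j, hj, hp2j⟩ := hp2
  have hij := hidx i (by omega) j (by omega) p1 hp1i p2 hp2j hd12
  subst hij
  have hclose : dist p1 p2 < δ := by
    have h1 : dist p1 (s i • q) < δ / 2 := hp1i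
    have h2 : dist p2 (s i • q) < δ / 2 := hp2j
    have := dist_triangle_right p1 p2 (s i • q)
    linarith
  have hv0 : vy - vx = 0 := by
    apply tight_TT hc hz hX hT
    intro k
    have h1 : TT n X z (cR (vy - vx)) = p1 - p2 := by rw [hp12]; abel
    rw [h1]
    have h2 : dist (p1 k) (p2 k) ≤ dist p1 p2 := dist_le_pi_dist p1 p2 k
    rw [Real.dist_eq] at h2
    rw [Pi.sub_apply]
    linarith
  apply hxy
  have h3 : vy = vx := sub_eq_zero.1 hv0
  apply Subtype.ext
  rw [hvx, hvy, h3]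

/-- the residue vector -/
def rv (n : ℕ) : Fin (n + 1) → ℤ := fun i => if i = Fin.last n then 1 else if i = 0 then 2 else 0

theorem taskF : TaskF := by
  intro n hn c hc hc1
  set δ : ℝ := c / 2 ^ (n + 1) with hδ
  have hδ0 : 0 < δ := by positivity
  set R := (δ ^ n)⁻¹ with hR
  have hR0 : 0 < R := by positivity
  refine ⟨4 * (R + 1) * 2 ^ (n + 1), ?_, ?_⟩
  · have : (1 : ℝ) ≤ 2 ^ (n + 1) := one_le_pow₀ (by norm_num)
    nlinarith
  intro z hz X hX hT
  have hX0 : 0 < X := by linarith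
  have hXn0 : 0 < X ^ n := by positivity
  have hz2 : |z| ≤ 2 := by rw [abs_le]; constructor <;> linarith [hz.1, hz.2]
  have h1 := covering hc hz2 hX hT ((-(1 / 4) : ℝ) • TT n X z (cR (rv n)))
  have h2 : Metric.infDist ((-(1 / 4) : ℝ) • TT n X z (cR (rv n))) (Lam n X z) < R + 1 :=
    lt_of_le_of_lt h1 (by linarith)
  obtain ⟨_, ⟨v, rfl⟩, hv⟩ := (Metric.infDist_lt_iff (Lam_ne n X z)).1 h2
  let u : Fin (n + 1) → ℤ := fun i => rv n i + 4 * v i
  have hu : cR u = cR (rv n) + (4 : ℝ) • cR v := by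
    ext i; simp [cR, u]
  have hb : ∀ i, |TT n X z (cR u) i| ≤ 4 * (R + 1) := by
    intro i
    rw [hu, TT_add, TT_smul]
    have h3 := dist_le_pi_dist ((-(1 / 4) : ℝ) • TT n X z (cR (rv n))) (TT n X z (cR v)) i
    have h4 := lt_of_le_of_lt h3 hv
    rw [Real.dist_eq] at h4
    simp only [Pi.add_apply, Pi.smul_apply, smul_eq_mul] at h4 ⊢
    have h5 : TT n X z (cR (rv n)) i + 4 * TT n X z (cR v) i
        = -4 * (-(1 / 4) * TT n X z (cR (rv n)) i - TT n X z (cR v) i) := by ring
    rw [h5, abs_mul]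
    have : |(-4 : ℝ)| = 4 := by norm_num
    rw [this]
    linarith
  obtain ⟨h3, h4⟩ := coord_bound hz2 hX _ hb
  have hp : (1 : ℝ) ≤ 2 ^ (n + 1) := one_le_pow₀ (by norm_num)
  refine ⟨u, h3, ?_, ?_, ?_, ?_⟩
  · rw [DD0]
    refine h4.trans (div_le_div_of_nonneg_right ?_ hXn0.le)
    nlinarith
  · simp only [u, rv, if_true]
    omega
  · have h0 : (0 : Fin (n + 1)) ≠ Fin.last n := by
      intro h
      have := congrArg Fin.val h
      simp at this
      omega
    simp only [u, rv, if_neg h0, if_true]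
    omega
  · intro i hi hl
    simp only [u, rv, if_neg hl, if_neg hi]
    omega

end Pool.Agent.H99R3.EX
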