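import Pool.Agent.H680R3.EX.Stmts

open MeasureTheory Polynomial Set

namespace Pool.Agent.H99R3.EX

open Pool.Agent.Helper404 (toP castQ kmC)
open Pool.Agent.H680R3.EX

/-- scaled coordinates -/
noncomputable def TT (n : ℕ) (X z : ℝ) (x : Fin (n + 1) → ℝ) : Fin (n + 1) → ℝ :=
  fun i => if i = 0 then X ^ n * ∑ j, x j * z ^ (j : ℕ) else x i / X

lemma DD0 {n : ℕ} (u : Fin (n + 1) → ℤ) (z : ℝ) : DD 0 u z = ∑ i, (u i : ℝ) * z ^ (i : ℕ) := by
  unfold DD toP
  rw [hasseDeriv_zero, LinearMap.id_apply, Polynomial.map_sum, Polynomial.eval_finset_sum]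
  refine Finset.sum_congr rfl fun i _ => ?_
  simp

lemma TT_add {n : ℕ} (X z : ℝ) (x y : Fin (n + 1) → ℝ) : TT n X z (x + y) = TT n X z x + TT n X z y := by
  ext i
  simp only [TT, Pi.add_apply]
  split_ifs with h
  · rw [← mul_add, ← Finset.sum_add_distrib]
    congr 1
    refine Finset.sum_congr rfl fun j _ => ?_
    ring
  · ring

lemma TT_smul {n : ℕ} (X z : ℝ) (a : ℝ) (x : Fin (n + 1) → ℝ) :
    TT n X z (a • x) = a • TT n X z x := by
  ext i
  simp only [TT, Pi.smul_apply, smul_eq_mul]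
  split_ifs with h
  · rw [Finset.mul_sum, Finset.mul_sum, Finset.mul_sum]
    refine Finset.sum_congr rfl fun j _ => ?_
    ring
  · ring

lemma TT_sub {n : ℕ} (X z : ℝ) (x y : Fin (n + 1) → ℝ) : TT n X z (x - y) = TT n X z x - TT n X z y := by
  have : x - y = x + (-1 : ℝ) • y := by ext i; simp [sub_eq_add_neg]
  rw [this, TT_add, TT_smul]
  ext i; simp [sub_eq_add_neg]

lemma two_sum (n : ℕ) : ∑ j : Fin n, (2 : ℝ) ^ ((j : ℕ) + 1) = 2 ^ (n + 1) - 2 := by
  rw [Fin.sum_univ_eq_sum_range (fun j => (2 : ℝ) ^ (j + 1)) n]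
  induction n with
  | zero => simp
  | succ n ih => rw [Finset.sum_range_succ, ih]; ring

/-- bounds on the coordinates from bounds on the scaled coordinates -/
lemma coord_bound {n : ℕ} {X z D : ℝ} (hz : |z| ≤ 2) (hX : 1 ≤ X) (x : Fin (n + 1) → ℝ)
    (hT : ∀ i, |TT n X z x i| ≤ D) :
    (∀ i, |x i| ≤ D * 2 ^ (n + 1) * X) ∧ |∑ j, x j * z ^ (j : ℕ)| ≤ D / X ^ n := by
  have hX0 : 0 < X := by linarith
  have hD : 0 ≤ D := (abs_nonneg _).trans (hT 0)
  have hXn : 1 ≤ X ^ n := one_le_pow₀ hX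
  have hXn0 : 0 < X ^ n := by linarith
  have h0 : |∑ j, x j * z ^ (j : ℕ)| ≤ D / X ^ n := by
    have := hT 0
    simp only [TT, if_true] at this
    rw [abs_mul, abs_of_pos hXn0] at this
    rw [le_div_iff₀ hXn0]; linarith
  have h1 : ∀ i, i ≠ 0 → |x i| ≤ D * X := by
    intro i hi
    have := hT i
    simp only [TT, if_neg hi] at this
    rw [abs_div, abs_of_pos hX0, div_le_iff₀ hX0] at this
    exact this
  have hp : (1 : ℝ) ≤ 2 ^ (n + 1) := one_le_pow₀ (by norm_num)
  refine ⟨fun i => ?_, h0⟩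
  by_cases hi : i = 0
  · subst hi
    rw [Fin.sum_univ_succ] at h0
    simp only [Fin.val_zero, pow_zero, mul_one, Fin.val_succ] at h0
    have h2 : |∑ j : Fin n, x j.succ * z ^ ((j : ℕ) + 1)| ≤ D * X * (2 ^ (n + 1) - 2) := by
      rw [← two_sum, Finset.mul_sum]
      refine (Finset.abs_sum_le_sum_abs _ _).trans (Finset.sum_le_sum fun j _ => ?_)
      rw [abs_mul, abs_pow]
      refine mul_le_mul (h1 _ (Fin.succ_ne_zero j)) (pow_le_pow_left₀ (abs_nonneg _) hz _)
        (by positivity) (by positivity)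
    have h3 : D / X ^ n ≤ D * X := by
      rw [div_le_iff₀ hXn0]
      have : D * 1 ≤ D * (X * X ^ n) := mul_le_mul_of_nonneg_left (by nlinarith) hD
      linarith
    have h4 : |x 0| ≤ |x 0 + ∑ j : Fin n, x j.succ * z ^ ((j : ℕ) + 1)|
        + |∑ j : Fin n, x j.succ * z ^ ((j : ℕ) + 1)| := by
      have := abs_sub (x 0 + ∑ j : Fin n, x j.succ * z ^ ((j : ℕ) + 1))
        (∑ j : Fin n, x j.succ * z ^ ((j : ℕ) + 1))
      rwa [add_sub_cancel_right] at this
    have h5 : 0 ≤ D * X := by positivity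
    nlinarith
  · refine (h1 i hi).trans ?_
    have h5 : 0 ≤ D * X := by positivity
    nlinarith

/-- the integer vector as a real vector -/
def cR {n : ℕ} (u : Fin (n + 1) → ℤ) : Fin (n + 1) → ℝ := fun i => (u i : ℝ)

/-- tightness in scaled coordinates -/
lemma tight_TT {n : ℕ} {c X z : ℝ} (hc : 0 < c) (hz : |z| ≤ 2) (hX : 1 ≤ X) (hT : Tight n c X z)
    (u : Fin (n + 1) → ℤ) (hu : ∀ i, |TT n X z (cR u) i| ≤ c / 2 ^ (n + 1)) : u = 0 := by
  by_contra h
  have hXn : 1 ≤ X ^ n := one_le_pow₀ hX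
  have hXn0 : 0 < X ^ n := by linarith
  obtain ⟨h1, h2⟩ := coord_bound hz hX _ hu
  refine hT u h ⟨fun i => ?_, ?_⟩
  · have := h1 i
    rwa [div_mul_cancel₀ _ (by positivity)] at this
  · rw [DD0]
    refine h2.trans (div_le_div_of_nonneg_right ?_ hXn0.le)
    exact div_le_self hc.le (one_le_pow₀ (by norm_num))

theorem taskH : TaskH := by
  intro n _ c B hc hc1 hB
  set δ : ℝ := c / 2 ^ (n + 1) with hδ
  have hδ0 : 0 < δ := by positivity
  refine ⟨(2 * B / δ + 3) ^ (n + 1), by positivity, ?_⟩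
  intro z hz X hX hT t ht
  have hX0 : 0 < X := by linarith
  have hXn0 : 0 < X ^ n := by positivity
  have hz2 : |z| ≤ 2 := by rw [abs_le]; constructor <;> linarith [hz.1, hz.2]
  set S : Set (Fin (n + 1) → ℤ) :=
    {u | (∀ i, |(u i : ℝ)| ≤ B * t * X) ∧ |DD 0 u z| ≤ B * t / X ^ n} with hS
  set M : ℤ := ⌈B * t / δ⌉ with hM
  let κ : (Fin (n + 1) → ℤ) → (Fin (n + 1) → ℤ) := fun u i => ⌊TT n X z (cR u) i / δ⌋
  have hinj : Function.Injective κ := by
    intro u v huv
    have h1 : u - v = 0 := by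
      apply tight_TT hc hz2 hX hT
      intro i
      have h2 : ⌊TT n X z (cR u) i / δ⌋ = ⌊TT n X z (cR v) i / δ⌋ := congrFun huv i
      have h3 := Int.abs_sub_lt_one_of_floor_eq_floor h2
      rw [← sub_div, abs_div, abs_of_pos hδ0, div_lt_one hδ0] at h3
      have h4 : cR (u - v) = cR u - cR v := by ext j; simp [cR]
      rw [h4, TT_sub, Pi.sub_apply]
      exact h3.le
    exact sub_eq_zero.1 h1
  have hmaps : ∀ u ∈ S, κ u ∈ Fintype.piFinset (fun _ : Fin (n + 1) => Finset.Icc (-M) M) := by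
    intro u hu
    rw [Fintype.mem_piFinset]
    intro i
    have h1 : |TT n X z (cR u) i| ≤ B * t := by
      simp only [TT]
      split_ifs with h
      · rw [abs_mul, abs_of_pos hXn0]
        have := hu.2
        rw [DD0, le_div_iff₀ hXn0] at this
        simp only [cR]
        linarith
      · rw [abs_div, abs_of_pos hX0, div_le_iff₀ hX0]
        exact hu.1 i
    have h2 : |TT n X z (cR u) i / δ| ≤ M := by
      rw [abs_div, abs_of_pos hδ0]
      refine le_trans ?_ (Int.le_ceil _)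
      exact div_le_div_of_nonneg_right h1 hδ0.le
    rw [abs_le] at h2
    rw [Finset.mem_Icc]
    constructor
    · apply Int.le_floor.2
      push_cast
      exact h2.1
    · have := (Int.floor_le (TT n X z (cR u) i / δ)).trans h2.2
      exact_mod_cast this
  have hfin : S.Finite := by
    refine Set.Finite.of_finite_image (f := κ) ?_ hinj.injOn
    refine (Fintype.piFinset (fun _ : Fin (n + 1) => Finset.Icc (-M) M)).finite_toSet.subset ?_
    rintro _ ⟨u, hu, rfl⟩
    exact hmaps u hu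
  refine ⟨hfin, ?_⟩
  have hcard : S.ncard ≤ (Fintype.piFinset (fun _ : Fin (n + 1) => Finset.Icc (-M) M)).card := by
    rw [← Set.ncard_image_of_injective S hinj, ← Set.ncard_coe_finset]
    refine Set.ncard_le_ncard ?_ (Finset.finite_toSet _)
    rintro _ ⟨u, hu, rfl⟩
    exact hmaps u hu
  rw [Fintype.card_piFinset_const, Int.card_Icc] at hcard
  have hM0 : 0 ≤ M := Int.ceil_nonneg (by positivity)
  have hM1 : (M : ℝ) ≤ B * t / δ + 1 := (Int.ceil_lt_add_one _).le
  have h1 : (((M + 1 - -M).toNat : ℕ) : ℝ) = 2 * M + 1 := by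
    have : (((M + 1 - -M).toNat : ℕ) : ℤ) = 2 * M + 1 := by omega
    exact_mod_cast this
  have h2 : (S.ncard : ℝ) ≤ (2 * (M : ℝ) + 1) ^ (n + 1) := by
    rw [← h1]
    exact_mod_cast hcard
  refine h2.trans ?_
  rw [← mul_pow]
  have hM2 : (0 : ℝ) ≤ M := by exact_mod_cast hM0
  refine pow_le_pow_left₀ (by positivity) ?_ _
  have : (2 * B / δ + 3) * t = 2 * (B * t / δ) + 3 * t := by ring
  rw [this]
  linarith

end Pool.Agent.H99R3.EX
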