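import Pool.Agent.H624R3.CP.Stmts

/-! Task VBP of project COVPROD (helper99). -/

set_option autoImplicit false

open MeasureTheory Metric Real

namespace Pool.Agent.H624R3.CP

namespace VBP99

lemma vb_zero : vb 0 = 1 := by
  unfold vb
  have h : closedBall (0 : E 0) 1 = Set.univ := by
    ext x
    simp [Subsingleton.elim x 0]
  rw [h]
  have h2 : (volume : Measure (E 0)) = Measure.dirac 0 := volume_euclideanSpace_eq_dirac _
  rw [h2]
  simp

lemma vb_pos' (n : ℕ) (hn : 1 ≤ n) : vb n = √π ^ n / Gamma ((n : ℝ) / 2 + 1) := by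
  unfold vb
  have : Nonempty (Fin n) := ⟨⟨0, hn⟩⟩
  rw [EuclideanSpace.volume_closedBall]
  have hg : 0 < Gamma ((n : ℝ) / 2 + 1) := Real.Gamma_pos_of_pos (by positivity)
  rw [ENNReal.ofReal_one, one_pow, one_mul, Fintype.card_fin]
  exact ENNReal.toReal_ofReal (by positivity)

lemma vb_eq (n : ℕ) : vb n = √π ^ n / Gamma ((n : ℝ) / 2 + 1) := by
  rcases Nat.eq_zero_or_pos n with h | h
  · subst h; rw [vb_zero]; simp
  · exact vb_pos' n h

lemma vb_pos (n : ℕ) : 0 < vb n := by
  rw [vb_eq]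
  have hg : 0 < Gamma ((n : ℝ) / 2 + 1) := Real.Gamma_pos_of_pos (by positivity)
  have : 0 < √π := Real.sqrt_pos.mpr Real.pi_pos
  positivity

lemma vb_succ (n : ℕ) : vb (n + 2) = vb n * (2 * π / (n + 2)) := by
  rw [vb_eq, vb_eq]
  have hg : 0 < Gamma ((n : ℝ) / 2 + 1) := Real.Gamma_pos_of_pos (by positivity)
  have e : (((n + 2 : ℕ) : ℝ) / 2 + 1) = ((n : ℝ) / 2 + 1) + 1 := by push_cast; ring
  rw [e, Real.Gamma_add_one (by positivity), pow_add, Real.sq_sqrt Real.pi_pos.le]
  field_simp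

/-- the ratio -/
noncomputable def rq (a b : ℕ) : ℝ := vb a * vb b / vb (a + b)

lemma rq_pos (a b : ℕ) : 0 < rq a b := by
  unfold rq
  have := vb_pos a
  have := vb_pos b
  have := vb_pos (a + b)
  positivity

lemma rq_comm (a b : ℕ) : rq a b = rq b a := by
  unfold rq; rw [mul_comm, Nat.add_comm]

lemma rq_zero (b : ℕ) : rq 0 b = 1 := by
  unfold rq; rw [vb_zero, one_mul, Nat.zero_add, div_self (vb_pos b).ne']

lemma rq_succ (a b : ℕ) : rq (a + 2) b = rq a b * (((a : ℝ) + b + 2) / (a + 2)) := by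
  unfold rq
  have h1 := vb_succ a
  have h2 := vb_succ (a + b)
  rw [show a + 2 + b = a + b + 2 by omega, h1, h2]
  have := vb_pos a
  have := vb_pos b
  have := vb_pos (a + b)
  have hpi := Real.pi_pos
  push_cast
  field_simp

lemma rq_succ' (a b : ℕ) : rq a (b + 2) = rq a b * (((a : ℝ) + b + 2) / (b + 2)) := by
  rw [rq_comm, rq_succ, rq_comm b a]
  congr 2
  ring

lemma pascal (a b : ℕ) : rq (a + 2) (b + 2) = rq a (b + 2) + rq (a + 2) b := by
  rw [rq_succ, rq_succ', rq_succ]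
  push_cast
  have := rq_pos a b
  field_simp
  ring

lemma vb_one : vb 1 = 2 := by
  rw [vb_eq]
  have : (((1 : ℕ) : ℝ) / 2 + 1) = 1 / 2 + 1 := by norm_num
  rw [this, Real.Gamma_add_one (by norm_num), Real.Gamma_one_half_eq]
  have : 0 < √π := Real.sqrt_pos.mpr Real.pi_pos
  field_simp

lemma rq_one (b : ℕ) : rq 1 b ^ 2 ≤ (b : ℝ) + 1 := by
  induction b using Nat.strong_induction_on with
  | _ b ih =>
    rcases Nat.lt_or_ge b 2 with h | h
    · interval_cases b
      · rw [rq_comm, rq_zero]; norm_num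
      · have h2 : vb 2 = π := by
          have := vb_succ 0
          rw [vb_zero] at this
          rw [this]; push_cast; ring
        unfold rq
        rw [show 1 + 1 = 2 from rfl, vb_one, h2]
        have := Real.pi_gt_three
        rw [div_pow, div_le_iff₀ (by positivity)]
        push_cast
        nlinarith
    · obtain ⟨c, rfl⟩ : ∃ c, b = c + 2 := ⟨b - 2, by omega⟩
      have hc := ih c (by omega)
      rw [rq_succ', mul_pow]
      push_cast
      have h1 : (((1 : ℝ) + c + 2) / (c + 2)) ^ 2 * ((c : ℝ) + 1) ≤ (c : ℝ) + 2 + 1 := by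
        rw [div_pow, div_mul_eq_mul_div, div_le_iff₀ (by positivity)]
        have : (0 : ℝ) ≤ c := Nat.cast_nonneg c
        nlinarith
      calc rq 1 c ^ 2 * (((1 : ℝ) + c + 2) / (c + 2)) ^ 2
          ≤ ((c : ℝ) + 1) * (((1 : ℝ) + c + 2) / (c + 2)) ^ 2 :=
            mul_le_mul_of_nonneg_right hc (by positivity)
        _ ≤ _ := by rw [mul_comm]; exact h1

lemma le_of_sq_le_sq' {x y : ℝ} (hy : 0 ≤ y) (h : x ^ 2 ≤ y ^ 2) : x ≤ y :=
  le_of_sq_le_sq h hy

/-- the comparison function -/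
noncomputable def hh (a b : ℕ) : ℝ := √10 ^ a * √(10 / 9) ^ b

lemma hh_pos (a b : ℕ) : 0 < hh a b := by unfold hh; positivity

lemma hh_sq (a b : ℕ) : hh a b ^ 2 = 10 ^ a * (10 / 9) ^ b := by
  unfold hh
  rw [mul_pow, ← pow_mul, ← pow_mul, mul_comm a 2, mul_comm b 2, pow_mul, pow_mul,
    Real.sq_sqrt (by norm_num), Real.sq_sqrt (by norm_num)]

lemma hh_pascal (a b : ℕ) : hh (a + 2) (b + 2) = hh a (b + 2) + hh (a + 2) b := by
  unfold hh
  rw [pow_add √10 a 2, pow_add √(10 / 9) b 2, Real.sq_sqrt (by norm_num),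
    Real.sq_sqrt (by norm_num)]
  ring

lemma one_le_hh (a b : ℕ) : 1 ≤ hh a b := by
  unfold hh
  have h1 : (1 : ℝ) ≤ √10 := by rw [Real.one_le_sqrt]; norm_num
  have h2 : (1 : ℝ) ≤ √(10 / 9) := by rw [Real.one_le_sqrt]; norm_num
  exact one_le_mul_of_one_le_of_one_le (one_le_pow₀ h1) (one_le_pow₀ h2)

lemma base_one (b : ℕ) : rq 1 b ≤ hh 1 b := by
  apply le_of_sq_le_sq' (hh_pos 1 b).le
  rw [hh_sq]
  refine (rq_one b).trans ?_
  have h := one_add_mul_le_pow (a := (1 / 9 : ℝ)) (by norm_num) b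
  have e : (1 + 1 / 9 : ℝ) = 10 / 9 := by norm_num
  rw [e] at h
  have : (0 : ℝ) ≤ b := Nat.cast_nonneg b
  rw [pow_one]
  linarith

lemma base_one' (a : ℕ) : rq a 1 ≤ hh a 1 := by
  apply le_of_sq_le_sq' (hh_pos a 1).le
  rw [hh_sq, rq_comm]
  refine (rq_one a).trans ?_
  have h := one_add_mul_le_pow (a := (9 : ℝ)) (by norm_num) a
  have e : (1 + 9 : ℝ) = 10 := by norm_num
  rw [e] at h
  have : (0 : ℝ) ≤ a := Nat.cast_nonneg a
  rw [pow_one]
  linarith

lemma rq_le : ∀ n a b : ℕ, a + b ≤ n → rq a b ≤ hh a b := by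
  intro n
  induction n with
  | zero =>
    intro a b h
    have ha : a = 0 := by omega
    subst ha
    rw [rq_zero]; exact one_le_hh _ _
  | succ n ih =>
    intro a b h
    rcases a with _ | _ | a
    · rw [rq_zero]; exact one_le_hh _ _
    · exact base_one b
    · rcases b with _ | _ | b
      · rw [rq_comm, rq_zero]; exact one_le_hh _ _
      · exact base_one' _
      · have := ih a (b + 2) (by omega)
        have := ih (a + 2) b (by omega)
        have h1 := pascal a b
        have h2 := hh_pascal a b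
        show rq (a + 2) (b + 2) ≤ hh (a + 2) (b + 2)
        linarith

lemma log_ten : Real.log 10 ≤ 59 / 25 := by
  have h1 : (25 : ℝ) * Real.log 10 ≤ 59 := by
    have h2 : (25 : ℝ) * Real.log 10 = Real.log (10 ^ 25) := by rw [Real.log_pow]; norm_num
    rw [h2]
    rw [Real.log_le_iff_le_exp (by positivity)]
    have h3 : (27 / 10 : ℝ) ≤ Real.exp 1 := by
      have := Real.exp_one_gt_d9
      linarith
    have h4 : Real.exp 59 = Real.exp 1 ^ 59 := by rw [← Real.exp_nat_mul]; norm_num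
    rw [h4]
    calc (10 : ℝ) ^ 25 ≤ (27 / 10) ^ 59 := by norm_num
      _ ≤ Real.exp 1 ^ 59 := pow_le_pow_left₀ (by norm_num) h3 59
  linarith

lemma hh_le (a b d : ℕ) (h : a + b = d) (h10 : 10 * a ≤ d) :
    hh a b ≤ exp ((21 / 125) * d) := by
  have hs : √(10 : ℝ) = exp (Real.log 10 / 2) := by
    rw [Real.sqrt_eq_iff_mul_self_eq (by norm_num) (exp_pos _).le, ← Real.exp_add, add_halves,
      Real.exp_log (by norm_num)]
  have hr : √(10 / 9 : ℝ) ≤ exp (1 / 18) := by
    rw [Real.sqrt_le_left (exp_pos _).le, ← Real.exp_nat_mul]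
    have := Real.add_one_le_exp ((2 : ℕ) * (1 / 18) : ℝ)
    refine le_trans ?_ this
    norm_num
  unfold hh
  calc √10 ^ a * √(10 / 9) ^ b ≤ exp (Real.log 10 / 2) ^ a * exp (1 / 18) ^ b := by
        rw [hs]
        apply mul_le_mul_of_nonneg_left _ (by positivity)
        exact pow_le_pow_left₀ (Real.sqrt_nonneg _) hr b
    _ = exp (a * (Real.log 10 / 2) + b * (1 / 18)) := by
        rw [← Real.exp_nat_mul, ← Real.exp_nat_mul, ← Real.exp_add]
    _ ≤ exp ((21 / 125) * d) := by
        apply Real.exp_le_exp.mpr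
        have h1 : (a : ℝ) + b = d := by exact_mod_cast h
        have h2 : (10 : ℝ) * a ≤ d := by exact_mod_cast h10
        have h3 := log_ten
        have ha : (0 : ℝ) ≤ a := Nat.cast_nonneg a
        have h4 : (a : ℝ) * (Real.log 10 / 2) ≤ a * (59 / 50) :=
          mul_le_mul_of_nonneg_left (by linarith) ha
        linarith

end VBP99

open VBP99 in
/-- Task VBP of project COVPROD. -/
theorem taskVBP : TaskVBP := by
  intro a b d h h10
  have h1 := rq_le (a + b) a b le_rfl
  have h2 := hh_le a b d h h10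
  have h3 : vb a * vb b = rq a b * vb d := by
    unfold rq
    rw [h, div_mul_cancel₀ _ (vb_pos d).ne']
  rw [h3, mul_comm (vb d)]
  exact mul_le_mul_of_nonneg_right (h1.trans h2) (vb_pos d).le

end Pool.Agent.H624R3.CP
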