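import Mathlib

set_option autoImplicit false

namespace Pool.Agent.H99R3.Func

/-- the `n`-th prime -/
noncomputable def pr (n : ℕ) : ℕ := Nat.nth Nat.Prime n

lemma pr_prime (n : ℕ) : (pr n).Prime :=
  Nat.nth_mem_of_infinite Nat.infinite_setOfPred_prime n

lemma pr_inj : Function.Injective pr :=
  (Nat.nth_strictMono Nat.infinite_setOfPred_prime).injective

/-- the full product -/
abbrev Pd : Type := ∀ n : ℕ, ZMod (pr n)

open Classical in
/-- the weight of a coordinate -/
noncomputable def wt (x : Pd) (n : ℕ) : ℝ := if x n = 0 then 0 else 1 / ((n : ℝ) + 1)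

lemma wt_nonneg (x : Pd) (n : ℕ) : 0 ≤ wt x n := by
  unfold wt
  split_ifs
  · exact le_refl _
  · positivity

lemma wt_mono {x y : Pd} {n : ℕ} (h : y n = 0 → x n = 0) : wt x n ≤ wt y n := by
  unfold wt
  by_cases hy : y n = 0
  · rw [if_pos hy, if_pos (h hy)]
  · rw [if_neg hy]
    split_ifs
    · positivity
    · exact le_refl _

lemma wt_add_le (x y : Pd) (n : ℕ) : wt (x + y) n ≤ wt x n + wt y n := by
  by_cases hx : x n = 0
  · have : wt (x + y) n ≤ wt y n := wt_mono (fun h => by simp [hx, h])
    linarith [wt_nonneg x n]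
  · have h1 : wt x n = 1 / ((n : ℝ) + 1) := by
      unfold wt
      rw [if_neg hx]
    have h2 : wt (x + y) n ≤ 1 / ((n : ℝ) + 1) := by
      unfold wt
      split_ifs
      · positivity
      · exact le_refl _
    linarith [wt_nonneg y n]

lemma wt_zero (n : ℕ) : wt 0 n = 0 := by
  unfold wt
  simp

lemma wt_neg (x : Pd) (n : ℕ) : wt (-x) n = wt x n := by
  unfold wt
  simp

/-- the subgroup of vectors of finite weight -/
noncomputable def Ks : AddSubgroup Pd where
  carrier := {x | Summable (wt x)}
  zero_mem' := by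
    show Summable (wt 0)
    have : wt 0 = fun _ => 0 := funext wt_zero
    rw [this]
    exact summable_zero
  add_mem' := by
    intro x y hx hy
    exact Summable.of_nonneg_of_le (wt_nonneg _) (wt_add_le x y) (Summable.add hx hy)
  neg_mem' := by
    intro x hx
    have : wt (-x) = wt x := funext (wt_neg x)
    show Summable (wt (-x))
    rw [this]
    exact hx

/-- the group `K` -/
def K : Type := ↥Ks

noncomputable instance : AddCommGroup K := inferInstanceAs (AddCommGroup ↥Ks)

/-- the coordinates of an element of `K` -/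
noncomputable def co : K →+ Pd := Ks.subtype

lemma co_inj : Function.Injective co := Subtype.val_injective

lemma co_summable (x : K) : Summable (wt (co x)) := x.2

/-- the norm -/
noncomputable def nm (x : K) : ℝ := ∑' n, wt (co x) n

lemma nm_mono {x y : K} (h : ∀ n, co y n = 0 → co x n = 0) : nm x ≤ nm y :=
  Summable.tsum_le_tsum (fun n => wt_mono (h n)) (co_summable x) (co_summable y)

lemma nm_eq_zero {x : K} (h : nm x = 0) : x = 0 := by
  apply co_inj
  rw [map_zero]
  funext n
  show co x n = 0
  have h1 : wt (co x) n = 0 := by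
    have := (hasSum_zero_iff_of_nonneg (wt_nonneg (co x))).mp (by
      have := (co_summable x).hasSum
      unfold nm at h
      rw [h] at this
      exact this)
    exact congrFun this n
  unfold wt at h1
  by_contra hne
  rw [if_neg hne] at h1
  have : (0 : ℝ) < 1 / ((n : ℝ) + 1) := by positivity
  linarith

/-- the norm as a group norm -/
noncomputable def nrm : AddGroupNorm K where
  toFun := nm
  map_zero' := by
    unfold nm
    simp [wt_zero]
  add_le' := by
    intro x y
    unfold nm
    rw [← (co_summable x).tsum_add (co_summable y)]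
    refine Summable.tsum_le_tsum (fun n => ?_) (co_summable _) ((co_summable x).add (co_summable y))
    rw [map_add]
    exact wt_add_le _ _ n
  neg' := by
    intro x
    unfold nm
    congr 1
    funext n
    rw [map_neg]
    exact wt_neg _ n
  eq_zero_of_map_eq_zero' := by
    intro x hx
    exact nm_eq_zero hx

noncomputable instance : NormedAddCommGroup K := nrm.toNormedAddCommGroup

lemma norm_def (x : K) : ‖x‖ = nm x := rfl

/-- divisibility by `pr n` away from the coordinate `n` -/
lemma exists_div (x : K) (n : ℕ) (hx : co x n = 0) : ∃ y : K, pr n • y = x := by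
  let y : Pd := fun k => if k = n then 0 else (pr n : ZMod (pr k))⁻¹ * co x k
  have hy : ∀ k, co x k = 0 → y k = 0 := by
    intro k hk
    show (if k = n then 0 else (pr n : ZMod (pr k))⁻¹ * co x k) = 0
    rw [hk]
    simp
  have hys : y ∈ Ks :=
    Summable.of_nonneg_of_le (wt_nonneg _) (fun k => wt_mono (hy k)) (co_summable x)
  let yk : K := ⟨y, hys⟩
  have hyk : co yk = y := rfl
  refine ⟨yk, ?_⟩
  apply co_inj
  rw [map_nsmul, hyk]
  funext k
  show pr n • (if k = n then 0 else (pr n : ZMod (pr k))⁻¹ * co x k) = co x k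
  by_cases hk : k = n
  · subst hk
    rw [if_pos rfl, hx, smul_zero]
  · rw [if_neg hk, nsmul_eq_mul, ← mul_assoc]
    have : Fact (pr k).Prime := ⟨pr_prime k⟩
    have hne : ((pr n : ℕ) : ZMod (pr k)) ≠ 0 := by
      rw [Ne, ZMod.natCast_eq_zero_iff]
      intro hdvd
      have := (Nat.prime_dvd_prime_iff_eq (pr_prime k) (pr_prime n)).mp hdvd
      exact hk (pr_inj this)
    rw [mul_inv_cancel₀ hne, one_mul]

lemma end_supp (h : K →+ K) (x : K) (n : ℕ) (hx : co x n = 0) : co (h x) n = 0 := by
  obtain ⟨y, rfl⟩ := exists_div x n hx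
  rw [map_nsmul, map_nsmul]
  show pr n • (co (h y) n) = 0
  rw [nsmul_eq_mul, ZMod.natCast_self, zero_mul]

lemma end_norm (h : K →+ K) (x : K) : ‖h x‖ ≤ ‖x‖ := by
  rw [norm_def, norm_def]
  exact nm_mono (fun n => end_supp h x n)

lemma end_continuous (h : K →+ K) : Continuous h := by
  refine AddMonoidHomClass.continuous_of_bound h 1 ?_
  intro x
  rw [one_mul]
  exact end_norm h x

/-- the unit vector -/
noncomputable def e (n : ℕ) : K := ⟨Pi.single n 1, by
  show Summable (wt (Pi.single n 1))
  refine summable_of_ne_finset_zero (s := {n}) ?_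
  intro b hb
  unfold wt
  rw [Finset.mem_singleton] at hb
  rw [Pi.single_eq_of_ne hb]
  simp⟩

lemma co_e (n : ℕ) : co (e n) = Pi.single n 1 := rfl

lemma co_e_self (n : ℕ) : co (e n) n = 1 := by rw [co_e, Pi.single_eq_same]

lemma co_e_ne {n k : ℕ} (h : k ≠ n) : co (e n) k = 0 := by rw [co_e, Pi.single_eq_of_ne h]

lemma one_ne (n : ℕ) : (1 : ZMod (pr n)) ≠ 0 := by
  have : Fact (pr n).Prime := ⟨pr_prime n⟩
  exact one_ne_zero

lemma norm_e (n : ℕ) : ‖e n‖ = 1 / ((n : ℝ) + 1) := by
  rw [norm_def]
  unfold nm
  rw [tsum_eq_single n]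
  · unfold wt
    rw [co_e_self, if_neg (one_ne n)]
  · intro b hb
    unfold wt
    rw [co_e_ne hb]
    simp

section greedy

variable (U : Set K)

open Classical in
/-- greedy walk inside `U` -/
noncomputable def gw : ℕ → K
  | 0 => 0
  | n + 1 => if gw n + e n ∈ U then gw n + e n else gw n

variable {U}

lemma gw_mem (h0 : (0 : K) ∈ U) (n : ℕ) : gw U n ∈ U := by
  induction n with
  | zero => exact h0
  | succ n ih =>
    unfold gw
    split_ifs with h
    · exact h
    · exact ih

lemma gw_succ_ne {n k : ℕ} (h : k ≠ n) : co (gw U (n + 1)) k = co (gw U n) k := by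
  conv_lhs => unfold gw
  split_ifs
  · rw [map_add]
    show co (gw U n) k + co (e n) k = _
    rw [co_e_ne h, add_zero]
  · rfl

lemma gw_high {n k : ℕ} (h : n ≤ k) : co (gw U n) k = 0 := by
  induction n with
  | zero => rfl
  | succ n ih => rw [gw_succ_ne (by omega), ih (by omega)]

lemma gw_stable {n k : ℕ} (h : k < n) : co (gw U n) k = co (gw U (k + 1)) k := by
  induction n with
  | zero => omega
  | succ n ih =>
    rcases Nat.lt_or_ge k n with h1 | h1
    · rw [gw_succ_ne (by omega), ih h1]
    · have : n = k := by omega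
      rw [this]

variable (U) in
/-- the limiting coordinates -/
noncomputable def cl : Pd := fun k => co (gw U (k + 1)) k

lemma sum_lt (h0 : (0 : K) ∈ U) (hb : ∀ x ∈ U, ‖x‖ < 1) (n : ℕ) :
    ∑ k ∈ Finset.range n, wt (cl U) k < 1 := by
  have h1 : ‖gw U n‖ = ∑ k ∈ Finset.range n, wt (cl U) k := by
    rw [norm_def]
    unfold nm
    rw [tsum_eq_sum (s := Finset.range n)]
    · refine Finset.sum_congr rfl (fun k hk => ?_)
      rw [Finset.mem_range] at hk
      unfold wt cl
      rw [gw_stable hk]
    · intro b hb
      rw [Finset.mem_range, not_lt] at hb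
      unfold wt
      rw [gw_high hb]
      simp
  rw [← h1]
  exact hb _ (gw_mem h0 n)

lemma cl_summable (h0 : (0 : K) ∈ U) (hb : ∀ x ∈ U, ‖x‖ < 1) : Summable (wt (cl U)) :=
  summable_of_sum_range_le (wt_nonneg _) (fun n => (sum_lt h0 hb n).le)

/-- the limit of the greedy walk -/
noncomputable def lim (h0 : (0 : K) ∈ U) (hb : ∀ x ∈ U, ‖x‖ < 1) : K :=
  ⟨cl U, cl_summable h0 hb⟩

lemma tendsto_gw (h0 : (0 : K) ∈ U) (hb : ∀ x ∈ U, ‖x‖ < 1) :
    Filter.Tendsto (gw U) Filter.atTop (nhds (lim h0 hb)) := by
  rw [tendsto_iff_norm_sub_tendsto_zero]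
  have hs := cl_summable h0 hb
  have h2 : ∀ n, ‖gw U n - lim h0 hb‖ ≤ ∑' k, wt (cl U) (k + n) := by
    intro n
    rw [norm_def]
    unfold nm
    rw [← (co_summable (gw U n - lim h0 hb)).sum_add_tsum_nat_add n]
    have h3 : ∑ k ∈ Finset.range n, wt (co (gw U n - lim h0 hb)) k = 0 := by
      refine Finset.sum_eq_zero (fun k hk => ?_)
      rw [Finset.mem_range] at hk
      unfold wt
      rw [if_pos]
      rw [map_sub]
      show co (gw U n) k - cl U k = 0
      unfold cl
      rw [gw_stable hk, sub_self]
    rw [h3, zero_add]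
    refine Summable.tsum_le_tsum (fun k => ?_) ?_ ?_
    · refine wt_mono (fun h => ?_)
      rw [map_sub]
      show co (gw U n) (k + n) - cl U (k + n) = 0
      rw [h, gw_high (by omega), sub_zero]
    · exact (summable_nat_add_iff n).mpr (co_summable _)
    · exact (summable_nat_add_iff n).mpr hs
  refine squeeze_zero (fun n => norm_nonneg _) h2 ?_
  exact tendsto_sum_nat_add (wt (cl U))

lemma not_isClopen (h0 : (0 : K) ∈ U) (hb : ∀ x ∈ U, ‖x‖ < 1) (hU : IsClopen U) : False := by
  have hlim := tendsto_gw h0 hb
  have hin : lim h0 hb ∈ U :=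
    hU.1.mem_of_tendsto hlim (Filter.Eventually.of_forall (gw_mem h0))
  -- eventually `gw n + e n ∈ U`
  have he : Filter.Tendsto (fun n => gw U n + e n) Filter.atTop (nhds (lim h0 hb)) := by
    have h1 : Filter.Tendsto e Filter.atTop (nhds 0) := by
      rw [tendsto_zero_iff_norm_tendsto_zero]
      simp_rw [norm_e]
      exact tendsto_one_div_add_atTop_nhds_zero_nat
    have := hlim.add h1
    rwa [add_zero] at this
  have hev : ∀ᶠ n in Filter.atTop, gw U n + e n ∈ U := he.eventually (hU.2.mem_nhds hin)
  rw [Filter.eventually_atTop] at hev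
  obtain ⟨N, hN⟩ := hev
  -- so all coordinates from `N` on are equal to one, contradicting summability
  have hc : ∀ n ≥ N, wt (cl U) n = 1 / ((n : ℝ) + 1) := by
    intro n hn
    unfold wt cl
    rw [if_neg]
    unfold gw
    rw [if_pos (hN n hn), map_add]
    show co (gw U n) n + co (e n) n ≠ 0
    rw [gw_high (le_refl n), co_e_self, zero_add]
    exact one_ne n
  have hs := cl_summable h0 hb
  have hs2 : Summable (fun n : ℕ => 1 / (((n + N : ℕ) : ℝ) + 1)) := by
    have := (summable_nat_add_iff N).mpr hs
    refine this.congr (fun n => ?_)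
    rw [hc (n + N) (by omega)]
  have hs3 : Summable (fun n : ℕ => 1 / ((n : ℝ) + 1)) :=
    (summable_nat_add_iff (f := fun n : ℕ => 1 / ((n : ℝ) + 1)) N).mp hs2
  have hs4 : Summable (fun n : ℕ => 1 / (n : ℝ)) := by
    refine (summable_nat_add_iff (f := fun n : ℕ => 1 / (n : ℝ)) 1).mp ?_
    refine hs3.congr (fun n => ?_)
    push_cast
    rfl
  exact Real.not_summable_one_div_natCast hs4

end greedy

/-- the functorial topology -/
noncomputable def T (G : Type) [AddCommGroup G] : AddGroupTopology G where
  toTopologicalSpace := ⨅ f : G →+ K, TopologicalSpace.induced f inferInstance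
  toIsTopologicalAddGroup := by
    apply topologicalAddGroup_iInf
    intro f
    exact topologicalAddGroup_induced f

lemma T_functorial (G H : Type) [AddCommGroup G] [AddCommGroup H] (f : G →+ H) :
    @Continuous G H (T G).toTopologicalSpace (T H).toTopologicalSpace f := by
  show @Continuous G H (⨅ f : G →+ K, TopologicalSpace.induced f inferInstance)
    (⨅ f : H →+ K, TopologicalSpace.induced f inferInstance) f
  rw [continuous_iInf_rng]
  intro h
  rw [continuous_induced_rng]
  refine continuous_iInf_dom (i := h.comp f) ?_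
  exact continuous_induced_dom

lemma T_K : (T K).toTopologicalSpace = (inferInstance : TopologicalSpace K) := by
  apply le_antisymm
  · refine (iInf_le _ (AddMonoidHom.id K)).trans ?_
    exact le_of_eq induced_id
  · refine le_iInf (fun f => ?_)
    exact continuous_iff_le_induced.mp (end_continuous f)

lemma K_infinite : Infinite K := by
  refine Infinite.of_injective e (fun a b hab => ?_)
  by_contra hne
  have h1 := congrArg (fun x => co x a) hab
  simp only [co_e_self] at h1
  rw [co_e_ne hne] at h1
  exact one_ne a h1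

theorem main :
    ¬ (∀ T : ∀ (G : Type) [AddCommGroup G], AddGroupTopology G,
      (∀ (G H : Type) [AddCommGroup G] [AddCommGroup H] (f : G →+ H),
        @Continuous G H (T G).toTopologicalSpace (T H).toTopologicalSpace f) →
      ∀ (G : Type) [AddCommGroup G], Infinite G →
        @T2Space G (T G).toTopologicalSpace →
        ∃ B : Set (Set G),
          @TopologicalSpace.IsTopologicalBasis G (T G).toTopologicalSpace B ∧
          ∀ s ∈ B, @IsClopen G (T G).toTopologicalSpace s) := by
  intro H
  obtain ⟨B, hB, hcl⟩ := H T T_functorial K K_infinite (by rw [T_K]; infer_instance)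
  rw [T_K] at hB
  have hop : IsOpen {x : K | ‖x‖ < 1} := isOpen_lt continuous_norm continuous_const
  obtain ⟨s, hs, h0, hsub⟩ := hB.exists_subset_of_mem_open (a := (0 : K))
    (u := {x : K | ‖x‖ < 1}) (by simp) hop
  have hc := hcl s hs
  rw [T_K] at hc
  exact not_isClopen h0 (fun x hx => hsub hx) hc

end Pool.Agent.H99R3.Func
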