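import Pool.Agent.H958R6.Stmts

/-!
# von Szily's identity (task TaskSz of the project H958-KNIGHT)
-/

set_option autoImplicit false

namespace Pool.Agent.H99R3.KnightSz

open Polynomial

/-- the middle coefficient of `(1+X)^(2j) (1-X)^(2i)` -/
noncomputable def Kc (i j : ℕ) : ℚ :=
  ((1 + X) ^ (2 * j) * (1 - X) ^ (2 * i) : ℚ[X]).coeff (i + j)

lemma Kc_zero (j : ℕ) : Kc 0 j = ((2 * j).choose j : ℚ) := by
  unfold Kc
  simp [coeff_one_add_X_pow]

lemma Kc_succ (i j : ℕ) : Kc (i + 1) j = Kc i (j + 1) - 4 * Kc i j := by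
  unfold Kc
  have h : ((1 + X) ^ (2 * j) * (1 - X) ^ (2 * (i + 1)) : ℚ[X]) =
      (1 + X) ^ (2 * (j + 1)) * (1 - X) ^ (2 * i) -
        C 4 * (X * ((1 + X) ^ (2 * j) * (1 - X) ^ (2 * i))) := by
    have h4 : (C 4 : ℚ[X]) = 4 := rfl
    rw [h4]
    ring
  rw [h, coeff_sub, coeff_C_mul, show i + 1 + j = (i + j) + 1 by omega, coeff_X_mul]
  rfl

/-- super Catalan numbers -/
noncomputable def Sc (i j : ℕ) : ℚ :=
  ((2 * i).factorial * (2 * j).factorial : ℚ) / (i.factorial * j.factorial * (i + j).factorial)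

lemma Sc_rec (i j : ℕ) : 4 * Sc i j = Sc (i + 1) j + Sc i (j + 1) := by
  unfold Sc
  have h1 : ((2 * (i + 1)).factorial : ℚ) = (2 * i + 2) * (2 * i + 1) * (2 * i).factorial := by
    rw [show 2 * (i + 1) = 2 * i + 1 + 1 by ring, Nat.factorial_succ, Nat.factorial_succ]
    push_cast; ring
  have h2 : ((2 * (j + 1)).factorial : ℚ) = (2 * j + 2) * (2 * j + 1) * (2 * j).factorial := by
    rw [show 2 * (j + 1) = 2 * j + 1 + 1 by ring, Nat.factorial_succ, Nat.factorial_succ]
    push_cast; ring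
  have h3 : ((i + 1).factorial : ℚ) = (i + 1) * i.factorial := by
    rw [Nat.factorial_succ]; push_cast; ring
  have h4 : ((j + 1).factorial : ℚ) = (j + 1) * j.factorial := by
    rw [Nat.factorial_succ]; push_cast; ring
  have h5 : ((i + 1 + j).factorial : ℚ) = (i + j + 1) * (i + j).factorial := by
    rw [show i + 1 + j = (i + j) + 1 by omega, Nat.factorial_succ]; push_cast; ring
  have h6 : ((i + (j + 1)).factorial : ℚ) = (i + j + 1) * (i + j).factorial := by
    rw [show i + (j + 1) = (i + j) + 1 by omega, Nat.factorial_succ]; push_cast; ring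
  rw [h1, h2, h3, h4, h5, h6]
  have e1 : (i.factorial : ℚ) ≠ 0 := by positivity
  have e2 : (j.factorial : ℚ) ≠ 0 := by positivity
  have e3 : ((i + j).factorial : ℚ) ≠ 0 := by positivity
  have e4 : (i : ℚ) + 1 ≠ 0 := by positivity
  have e5 : (j : ℚ) + 1 ≠ 0 := by positivity
  have e6 : (i : ℚ) + j + 1 ≠ 0 := by positivity
  field_simp
  ring

lemma Kc_eq (i j : ℕ) : Kc i j = (-1) ^ i * Sc i j := by
  induction i generalizing j with
  | zero =>
    rw [Kc_zero]
    unfold Sc
    rw [Nat.cast_choose ℚ (by omega : j ≤ 2 * j)]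
    rw [show 2 * j - j = j by omega]
    simp
  | succ i ih =>
    rw [Kc_succ, ih, ih, pow_succ]
    have := Sc_rec i j
    linear_combination ((-1) ^ i) * (-this)

/-- von Szily's identity -/
theorem taskSz : H958R6.TaskSz := by
  intro i j
  change Kc i j * _ = _
  rw [Kc_eq]
  unfold Sc
  rw [Nat.cast_choose ℚ (by omega : i ≤ i + j), Nat.cast_choose ℚ (by omega : j ≤ 2 * j),
    Nat.cast_choose ℚ (by omega : i ≤ 2 * i)]
  rw [show i + j - i = j by omega, show 2 * j - j = j by omega, show 2 * i - i = i by omega]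
  have e1 : (i.factorial : ℚ) ≠ 0 := by positivity
  have e2 : (j.factorial : ℚ) ≠ 0 := by positivity
  have e3 : ((i + j).factorial : ℚ) ≠ 0 := by positivity
  field_simp

end Pool.Agent.H99R3.KnightSz
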