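import Mathlib

set_option autoImplicit false

namespace Pool.Agent.H99R3.QP

variable {K : Type} [Field K] [Fintype K]

theorem pow64 (hK : Fintype.card K = 2 ^ 6) (x : K) : x ^ 64 = x := by
  have := FiniteField.pow_card x
  rw [hK] at this
  norm_num at this
  exact this

theorem charTwo (hK : Fintype.card K = 2 ^ 6) : CharP K 2 := by
  obtain ⟨p, hp⟩ := CharP.exists K
  obtain ⟨n, hpp, hn⟩ := FiniteField.card K p
  have h2 : p ∣ 2 ^ 6 := by
    rw [← hK, hn]
    exact dvd_pow_self p n.ne_zero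
  have h3 : p ∣ 2 := hpp.dvd_of_dvd_pow h2
  have h4 : p = 2 := (Nat.prime_dvd_prime_iff_eq hpp Nat.prime_two).mp h3
  subst h4
  exact hp

/-- an element of order `p` for a prime `p` dividing `63` -/
theorem exists_order (hK : Fintype.card K = 2 ^ 6) (p : ℕ) (hp : p.Prime) (hd : p ∣ 63) :
    ∃ u : K, u ≠ 0 ∧ u ≠ 1 ∧ u ^ p = 1 := by
  have : Fact p.Prime := ⟨hp⟩
  classical
  have hc : Fintype.card Kˣ = 63 := by
    rw [Fintype.card_units, hK]; norm_num
  obtain ⟨u, hu⟩ := exists_prime_orderOf_dvd_card (G := Kˣ) p (by rw [hc]; exact hd)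
  refine ⟨(u : K), u.ne_zero, ?_, ?_⟩
  · intro h
    have : u = 1 := Units.ext (by simpa using h)
    rw [this, orderOf_one] at hu
    exact hp.one_lt.ne hu
  · have : u ^ p = 1 := by rw [← hu]; exact pow_orderOf_eq_one u
    have h2 := congrArg (Units.val) this
    simpa using h2

/-- the trace to the subfield with eight elements -/
def T (x : K) : K := x + x ^ 8

theorem T_add (hK : Fintype.card K = 2 ^ 6) (x y : K) : T (x + y) = T x + T y := by
  have := charTwo hK
  unfold T
  have : (x + y) ^ 8 = x ^ 8 + y ^ 8 := by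
    have := add_pow_char_pow (R := K) (p := 2) (n := 3) x y
    simpa using this
  rw [this]; ring

theorem T_pow8 (hK : Fintype.card K = 2 ^ 6) (x : K) : (T x) ^ 8 = T x := by
  have := charTwo hK
  unfold T
  have : (x + x ^ 8) ^ 8 = x ^ 8 + (x ^ 8) ^ 8 := by
    have := add_pow_char_pow (R := K) (p := 2) (n := 3) x (x ^ 8)
    simpa using this
  rw [this, ← pow_mul]
  norm_num
  rw [pow64 hK]
  ring

theorem T_mul (e x : K) (he : e ^ 8 = e) : T (e * x) = e * T x := by
  unfold T
  rw [mul_pow, he]; ring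

theorem T_zero_iff (hK : Fintype.card K = 2 ^ 6) (x : K) : T x = 0 ↔ x ^ 8 = x := by
  have := charTwo hK
  unfold T
  constructor
  · intro h
    have h1 : x ^ 8 = -x := by
      have : x ^ 8 + x = 0 := by rw [add_comm]; exact h
      exact eq_neg_of_add_eq_zero_left this
    rw [h1, CharTwo.neg_eq]
  · intro h
    rw [h]
    exact CharTwo.add_self_eq_zero x

/-- elements with `T w = 1` exist -/
theorem exists_w (hK : Fintype.card K = 2 ^ 6) : ∃ w : K, T w = 1 := by
  obtain ⟨u, hu0, hu1, hu3⟩ := exists_order (K := K) hK 3 Nat.prime_three (by norm_num)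
  have hT : T u ≠ 0 := by
    rw [Ne, T_zero_iff hK]
    intro h
    have h8 : u ^ 8 = u ^ 2 := by
      have : u ^ 8 = (u ^ 3) ^ 2 * u ^ 2 := by ring
      rw [this, hu3]; ring
    rw [h8] at h
    have : u * (u - 1) = 0 := by linear_combination h
    rcases mul_eq_zero.mp this with h | h
    · exact hu0 h
    · exact hu1 (sub_eq_zero.mp h)
  refine ⟨(T u)⁻¹ * u, ?_⟩
  rw [T_mul]
  · exact inv_mul_cancel₀ hT
  · rw [inv_pow, T_pow8 hK]

def f (w x : K) : K := w * T x + (T x) ^ 2
def g (w x : K) : K := w * T x + (T x) ^ 4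
def fh (w x : K) : K := T (w * x) + (T x) ^ 4

/-- the coefficients -/
def ca (w : K) : Fin 6 → K := ![w, 1, 0, w, 1, 0]
def cb (w : K) : Fin 6 → K := ![w, 0, 1, w, 0, 1]

theorem sum_a (hK : Fintype.card K = 2 ^ 6) (w x : K) :
    (∑ k : Fin 6, ca w k * x ^ (2 ^ (k : ℕ))) = f w x := by
  have := charTwo hK
  have h2 : (x + x ^ 8) ^ 2 = x ^ 2 + (x ^ 8) ^ 2 := by
    have := add_pow_char_pow (R := K) (p := 2) (n := 1) x (x ^ 8)
    simpa using this
  simp [Fin.sum_univ_succ, ca, f, T]
  rw [h2]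
  ring

theorem sum_b (hK : Fintype.card K = 2 ^ 6) (w x : K) :
    (∑ k : Fin 6, cb w k * x ^ (2 ^ (k : ℕ))) = g w x := by
  have := charTwo hK
  have h2 : (x + x ^ 8) ^ 4 = x ^ 4 + (x ^ 8) ^ 4 := by
    have := add_pow_char_pow (R := K) (p := 2) (n := 2) x (x ^ 8)
    simpa using this
  simp [Fin.sum_univ_succ, cb, g, T]
  rw [h2]
  ring

theorem sum_ah (hK : Fintype.card K = 2 ^ 6) (w x : K) :
    (∑ k : Fin 6, (ca w k) ^ (2 ^ (6 - (k : ℕ))) * x ^ (2 ^ (6 - (k : ℕ)))) = fh w x := by
  have := charTwo hK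
  have h2 : (x + x ^ 8) ^ 4 = x ^ 4 + (x ^ 8) ^ 4 := by
    have := add_pow_char_pow (R := K) (p := 2) (n := 2) x (x ^ 8)
    simpa using this
  simp [Fin.sum_univ_succ, ca, fh, T]
  rw [h2, pow64 hK, pow64 hK, mul_pow]
  ring


theorem w_not_E (hK : Fintype.card K = 2 ^ 6) (w : K) (hw : T w = 1) : w ^ 8 ≠ w := by
  intro h
  rw [(T_zero_iff hK w).mpr h] at hw
  exact zero_ne_one hw

theorem T_one (hK : Fintype.card K = 2 ^ 6) : T (1 : K) = 0 := by
  rw [T_zero_iff hK]; simp

theorem e_pow8 (u : K) (hu : u ^ 7 = 1) : u ^ 8 = u := by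
  have : u ^ 8 = u ^ 7 * u := by ring
  rw [this, hu, one_mul]

theorem sq_ne (u : K) (h0 : u ≠ 0) (h1 : u ≠ 1) : u ^ 2 ≠ u := by
  intro h
  have : u * (u - 1) = 0 := by linear_combination h
  rcases mul_eq_zero.mp this with h | h
  · exact h0 h
  · exact h1 (sub_eq_zero.mp h)

theorem cube_ne (u : K) (h1 : u ≠ 1) (h7 : u ^ 7 = 1) : u ^ 3 ≠ 1 := by
  intro h
  apply h1
  have : u ^ 7 = (u ^ 3) ^ 2 * u := by ring
  rw [h] at this
  rw [h7] at this
  simpa using this.symm

/-- maximum field of linearity of `f` -/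
theorem lin_f (hK : Fintype.card K = 2 ^ 6) (w : K) (hw : T w = 1) (t : ℕ) (ht : t ∣ 6)
    (h1 : 1 < t) :
    ¬ ∀ μ : K, μ ^ (2 ^ t) = μ → ∀ x : K, f w (μ * x) = μ * f w x := by
  intro H
  obtain ⟨u, hu0, hu1, hu3⟩ := exists_order (K := K) hK 3 Nat.prime_three (by norm_num)
  obtain ⟨e, he0, he1, he7⟩ := exists_order (K := K) hK 7 (by norm_num) (by norm_num)
  have he8 := e_pow8 e he7
  have := charTwo hK
  have hmu : (e ^ (2 ^ t) = e) → False := by
    intro hh
    have := H e hh w
    unfold f at this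
    rw [T_mul _ _ he8, hw] at this
    have h2 : e ^ 2 = e := by linear_combination this
    exact sq_ne e he0 he1 h2
  have ht6 : t ≤ 6 := Nat.le_of_dvd (by norm_num) ht
  interval_cases t
  · have h4 : u ^ (2 ^ 2) = u := by
      have : u ^ (2 ^ 2) = u ^ 3 * u := by ring
      rw [this, hu3, one_mul]
    have h := H u h4 1
    have hTu : T u = 1 := by
      have h8 : u ^ 8 = u ^ 2 := by
        have : u ^ 8 = (u ^ 3) ^ 2 * u ^ 2 := by ring
        rw [this, hu3]; ring
      unfold T
      rw [h8]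
      have h3 : (u - 1) * (u + u ^ 2 + 1) = 0 := by linear_combination hu3
      rcases mul_eq_zero.mp h3 with h | h
      · exact absurd (sub_eq_zero.mp h) hu1
      · have := CharTwo.add_self_eq_zero (1 : K)
        linear_combination h - this
    unfold f at h
    rw [mul_one, hTu, T_one hK] at h
    have h5 : w + 1 = 0 := by linear_combination h
    have h6 : w = 1 := by
      rw [← CharTwo.neg_eq (1 : K)]
      exact eq_neg_of_add_eq_zero_left h5
    apply w_not_E hK w hw
    rw [h6]; simp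
  · exact hmu (by norm_num; exact he8)
  · exact absurd ht (by norm_num)
  · exact absurd ht (by norm_num)
  · exact hmu (by norm_num; exact pow64 hK e)

/-- maximum field of linearity of `g` -/
theorem lin_g (hK : Fintype.card K = 2 ^ 6) (w : K) (hw : T w = 1) (t : ℕ) (ht : t ∣ 6)
    (h1 : 1 < t) :
    ¬ ∀ μ : K, μ ^ (2 ^ t) = μ → ∀ x : K, g w (μ * x) = μ * g w x := by
  intro H
  obtain ⟨u, hu0, hu1, hu3⟩ := exists_order (K := K) hK 3 Nat.prime_three (by norm_num)
  obtain ⟨e, he0, he1, he7⟩ := exists_order (K := K) hK 7 (by norm_num) (by norm_num)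
  have he8 := e_pow8 e he7
  have := charTwo hK
  have hmu : (e ^ (2 ^ t) = e) → False := by
    intro hh
    have := H e hh w
    unfold g at this
    rw [T_mul _ _ he8, hw] at this
    have h2 : e ^ 4 = e := by linear_combination this
    have h3 : e * (e ^ 3 - 1) = 0 := by linear_combination h2
    rcases mul_eq_zero.mp h3 with h | h
    · exact he0 h
    · exact cube_ne e he1 he7 (sub_eq_zero.mp h)
  have ht6 : t ≤ 6 := Nat.le_of_dvd (by norm_num) ht
  interval_cases t
  · have h4 : u ^ (2 ^ 2) = u := by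
      have : u ^ (2 ^ 2) = u ^ 3 * u := by ring
      rw [this, hu3, one_mul]
    have h := H u h4 1
    have hTu : T u = 1 := by
      have h8 : u ^ 8 = u ^ 2 := by
        have : u ^ 8 = (u ^ 3) ^ 2 * u ^ 2 := by ring
        rw [this, hu3]; ring
      unfold T
      rw [h8]
      have h3 : (u - 1) * (u + u ^ 2 + 1) = 0 := by linear_combination hu3
      rcases mul_eq_zero.mp h3 with h | h
      · exact absurd (sub_eq_zero.mp h) hu1
      · have := CharTwo.add_self_eq_zero (1 : K)
        linear_combination h - this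
    unfold g at h
    rw [mul_one, hTu, T_one hK] at h
    have h5 : w + 1 = 0 := by linear_combination h
    have h6 : w = 1 := by
      rw [← CharTwo.neg_eq (1 : K)]
      exact eq_neg_of_add_eq_zero_left h5
    apply w_not_E hK w hw
    rw [h6]; simp
  · exact hmu (by norm_num; exact he8)
  · exact absurd ht (by norm_num)
  · exact absurd ht (by norm_num)
  · exact hmu (by norm_num; exact pow64 hK e)

/-- the two image sets coincide -/
theorem image_eq (hK : Fintype.card K = 2 ^ 6) (w : K) :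
    {z : K | ∃ x : K, x ≠ 0 ∧ z = f w x / x} = {z : K | ∃ x : K, x ≠ 0 ∧ z = g w x / x} := by
  have hE7 : ∀ x : K, T x ≠ 0 → (T x) ^ 7 = 1 := by
    intro x hx
    have := T_pow8 hK x
    have h2 : T x * ((T x) ^ 7 - 1) = 0 := by linear_combination this
    rcases mul_eq_zero.mp h2 with h | h
    · exact absurd h hx
    · exact sub_eq_zero.mp h
  ext z
  constructor
  · rintro ⟨x, hx, rfl⟩
    by_cases hT : T x = 0
    · refine ⟨1, one_ne_zero, ?_⟩
      unfold f g
      rw [T_one hK, hT]
      simp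
    · -- `t = T x`, `s = t ^ 5`, `y = s * (x / t) = t ^ 4 * x`
      have h7 := hE7 x hT
      refine ⟨(T x) ^ 4 * x, mul_ne_zero (pow_ne_zero _ hT) hx, ?_⟩
      unfold f g
      rw [T_mul _ _ (by rw [← pow_mul, mul_comm, pow_mul, T_pow8 hK])]
      have h20 : (T x) ^ 14 = 1 := by
        have : (T x) ^ 14 = ((T x) ^ 7) ^ 2 := by ring
        rw [this, h7]; ring
      rw [div_eq_div_iff hx (mul_ne_zero (pow_ne_zero _ hT) hx)]
      have : (T x) ^ 20 = (T x) ^ 6 := by
        have : (T x) ^ 20 = (T x) ^ 14 * (T x) ^ 6 := by ring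
        rw [this, h20, one_mul]
      linear_combination (-x) * this
  · rintro ⟨y, hy, rfl⟩
    by_cases hT : T y = 0
    · refine ⟨1, one_ne_zero, ?_⟩
      unfold f g
      rw [T_one hK, hT]
      simp
    · -- `s = T y`, `t = s ^ 3`, `x = t * (y / s) = s ^ 2 * y`
      refine ⟨(T y) ^ 2 * y, mul_ne_zero (pow_ne_zero _ hT) hy, ?_⟩
      unfold f g
      rw [T_mul _ _ (by rw [← pow_mul, mul_comm, pow_mul, T_pow8 hK])]
      rw [div_eq_div_iff hy (mul_ne_zero (pow_ne_zero _ hT) hy)]
      ring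

/-- alternative (a) fails already for `f` -/
theorem not_a (hK : Fintype.card K = 2 ^ 6) (w : K) (hw : T w = 1) (σ : K ≃+* K)
    (c₁ c₂ c₃ c₄ α : K) (i : ℕ) (hc : c₁ * c₄ - c₂ * c₃ ≠ 0) (hi : Nat.Coprime i 6)
    (h : Set.range (fun x : K => (c₁ * σ x + c₂ * σ (f w x), c₃ * σ x + c₄ * σ (f w x))) =
      Set.range (fun y : K => (y, α * y ^ (2 ^ i)))) : False := by
  obtain ⟨e, he0, he1, he7⟩ := exists_order (K := K) hK 7 (by norm_num) (by norm_num)
  have he8 := e_pow8 e he7
  have key : ∀ x : K, c₃ * σ x + c₄ * σ (f w x) = α * (c₁ * σ x + c₂ * σ (f w x)) ^ (2 ^ i) := by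
    intro x
    have : (c₁ * σ x + c₂ * σ (f w x), c₃ * σ x + c₄ * σ (f w x)) ∈
        Set.range (fun y : K => (y, α * y ^ (2 ^ i))) := by
      rw [← h]; exact ⟨x, rfl⟩
    obtain ⟨y, hy⟩ := this
    have h1 : y = c₁ * σ x + c₂ * σ (f w x) := congrArg Prod.fst hy
    have h2 : α * y ^ (2 ^ i) = c₃ * σ x + c₄ * σ (f w x) := congrArg Prod.snd hy
    rw [← h2, h1]
  have f0 : ∀ x : K, x ^ 8 = x → f w x = 0 := by
    intro x hx
    unfold f
    rw [(T_zero_iff hK x).mpr hx]
    ring
  have k1 := key 1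
  rw [f0 1 (by simp)] at k1
  have k2 := key e
  rw [f0 e he8] at k2
  simp only [map_one, map_zero, mul_zero, add_zero, mul_one] at k1 k2
  rw [mul_pow] at k2
  have k3 : c₃ * σ e = c₃ * (σ e) ^ (2 ^ i) := by
    rw [k2, k1]; ring
  by_cases hc3 : c₃ = 0
  · subst hc3
    have hc1 : c₁ ≠ 0 := by
      rintro rfl
      apply hc; ring
    have hc4 : c₄ ≠ 0 := by
      rintro rfl
      apply hc; ring
    have ha : α = 0 := by
      rcases mul_eq_zero.mp k1.symm with h | h
      · exact h
      · exact absurd h (pow_ne_zero _ hc1)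
    have k4 := key w
    rw [ha] at k4
    simp only [zero_mul, zero_add] at k4
    have k5 : σ (f w w) = 0 := by
      rcases mul_eq_zero.mp k4 with h | h
      · exact absurd h hc4
      · exact h
    have k6 : f w w = 0 := by
      have := (map_eq_zero σ).mp k5
      exact this
    unfold f at k6
    rw [hw] at k6
    have := charTwo hK
    have h6 : w = 1 := by
      rw [← CharTwo.neg_eq (1 : K)]
      exact eq_neg_of_add_eq_zero_left (by linear_combination k6)
    apply w_not_E hK w hw
    rw [h6]; simp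
  · have k4 : σ e = (σ e) ^ (2 ^ i) := mul_left_cancel₀ hc3 k3
    have k5 : e = e ^ (2 ^ i) := by
      apply σ.injective
      rw [map_pow]; exact k4
    -- order of `e` is `7` and `2 ^ i ≡ 2, 4 (mod 7)`
    have hi3 : i % 3 ≠ 0 := by
      intro hh
      have : 3 ∣ i := Nat.dvd_of_mod_eq_zero hh
      have h3 : 3 ∣ Nat.gcd i 6 := Nat.dvd_gcd this (by norm_num)
      rw [hi] at h3
      norm_num at h3
    have hpow : ∀ m : ℕ, e ^ (2 ^ (3 * m)) = e := by
      intro m
      induction m with
      | zero => simp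
      | succ m ih =>
        have : 2 ^ (3 * (m + 1)) = 2 ^ (3 * m) * 8 := by
          rw [mul_add, pow_add]; norm_num
        rw [this, pow_mul, ih, he8]
    have hdecomp : i = 3 * (i / 3) + i % 3 := (Nat.div_add_mod i 3).symm
    have hlt : i % 3 < 3 := Nat.mod_lt _ (by norm_num)
    have k6 : e = e ^ (2 ^ (i % 3)) := by
      conv_lhs => rw [k5, hdecomp, pow_add, pow_mul, hpow]
    have hcase : i % 3 = 1 ∨ i % 3 = 2 := by omega
    rcases hcase with h1 | h1
    · rw [h1] at k6
      exact sq_ne e he0 he1 (by simpa using k6.symm)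
    · rw [h1] at k6
      have h2 : e ^ 4 = e := by
        norm_num at k6
        exact k6.symm
      have h3 : e * (e ^ 3 - 1) = 0 := by linear_combination h2
      rcases mul_eq_zero.mp h3 with h | h
      · exact he0 h
      · exact cube_ne e he1 he7 (sub_eq_zero.mp h)

/-- first part of alternative (b) fails -/
theorem not_b1 (hK : Fintype.card K = 2 ^ 6) (w : K) (hw : T w = 1) (l : K) (hl : l ≠ 0)
    (h : ∀ x : K, g w x = f w (l * x) / l) : False := by
  obtain ⟨e, he0, he1, he7⟩ := exists_order (K := K) hK 7 (by norm_num) (by norm_num)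
  have he8 := e_pow8 e he7
  have key : ∀ x : K, l * g w x = f w (l * x) := by
    intro x
    rw [h x]; field_simp
  have hTl : T l = 0 := by
    by_contra hs
    have k1 := key 1
    have k2 := key e
    unfold f g at k1 k2
    rw [mul_one, T_one hK] at k1
    rw [mul_comm l e, T_mul _ _ he8, (T_zero_iff hK e).mpr he8] at k2
    have k3 : w * T l + (T l) ^ 2 = 0 := by linear_combination -k1
    have k4 : e * (w * T l + e * (T l) ^ 2) = 0 := by linear_combination -k2
    have k5 : w * T l + e * (T l) ^ 2 = 0 := by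
      rcases mul_eq_zero.mp k4 with h | h
      · exact absurd h he0
      · exact h
    have k6 : (e - 1) * (T l) ^ 2 = 0 := by linear_combination k5 - k3
    rcases mul_eq_zero.mp k6 with h | h
    · exact he1 (sub_eq_zero.mp h)
    · exact pow_ne_zero _ hs h
  have hl8 : l ^ 8 = l := (T_zero_iff hK l).mp hTl
  have k1 := key w
  have k2 := key (e * w)
  unfold f g at k1 k2
  rw [T_mul _ _ hl8, hw] at k1
  rw [T_mul _ _ hl8, T_mul _ _ he8, hw] at k2
  have k3 : l * (l - 1) = 0 := by linear_combination -k1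
  have k4 : l = 1 := by
    rcases mul_eq_zero.mp k3 with h | h
    · exact absurd h hl
    · exact sub_eq_zero.mp h
  subst k4
  have k5 : e ^ 4 = e ^ 2 := by linear_combination k2
  have k6 : e ^ 2 * (e ^ 2 - 1) = 0 := by linear_combination k5
  rcases mul_eq_zero.mp k6 with h | h
  · exact pow_ne_zero _ he0 h
  · have h2 : e ^ 2 = 1 := sub_eq_zero.mp h
    apply he1
    have : e ^ 7 = (e ^ 2) ^ 3 * e := by ring
    rw [h2, he7] at this
    simpa using this.symm

/-- second part of alternative (b) fails -/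
theorem not_b2 (hK : Fintype.card K = 2 ^ 6) (w : K) (hw : T w = 1) (l : K) (hl : l ≠ 0)
    (h : ∀ x : K, g w x = fh w (l * x) / l) : False := by
  obtain ⟨e, he0, he1, he7⟩ := exists_order (K := K) hK 7 (by norm_num) (by norm_num)
  have he8 := e_pow8 e he7
  have key : ∀ x : K, l * g w x = fh w (l * x) := by
    intro x
    rw [h x]; field_simp
  have k1 := key 1
  have k2 := key e
  unfold fh g at k1 k2
  rw [mul_one, T_one hK] at k1
  have e1 : w * (l * e) = e * (w * l) := by ring
  rw [e1, mul_comm l e, T_mul _ _ he8, T_mul _ _ he8, (T_zero_iff hK e).mpr he8] at k2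
  have k3 : T (w * l) + (T l) ^ 4 = 0 := by linear_combination -k1
  have k4 : e * (T (w * l) + e ^ 3 * (T l) ^ 4) = 0 := by linear_combination -k2
  have k5 : T (w * l) + e ^ 3 * (T l) ^ 4 = 0 := by
    rcases mul_eq_zero.mp k4 with h | h
    · exact absurd h he0
    · exact h
  have k6 : (e ^ 3 - 1) * (T l) ^ 4 = 0 := by linear_combination k5 - k3
  have hTl : T l = 0 := by
    rcases mul_eq_zero.mp k6 with h | h
    · exact absurd (sub_eq_zero.mp h) (cube_ne e he1 he7)
    · exact pow_eq_zero_iff (by norm_num) |>.mp h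
  have hl8 : l ^ 8 = l := (T_zero_iff hK l).mp hTl
  rw [hTl, mul_comm w l, T_mul _ _ hl8, hw] at k3
  apply hl
  linear_combination k3

end Pool.Agent.H99R3.QP
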