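import Pool.Agent.H99R3.ST_FixI

/-!
# Task TFixM of the project H972-ST: fixed lattice points of `a 2`
-/

set_option autoImplicit false

namespace Pool.Agent.H99R3.STFixM

open Pool.Agent.H972ST Finset Pool.Agent.H99R3.STFixI

/-- parametrisation of the fixed points -/
def gm (p : (ℤ × ℤ) × (ℤ × ℤ)) : Fin 8 → ℤ :=
  ![2 * p.2.1, 2 * p.2.2, p.1.1, p.1.2, -2 * p.2.1 - 2 * p.2.2, p.2.1, p.2.2, p.2.1 + p.2.2]

lemma gm_inj : Function.Injective gm := by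
  intro p q h
  have h2 := congrFun h 2
  have h3 := congrFun h 3
  have h5 := congrFun h 5
  have h6 := congrFun h 6
  exact Prod.ext (Prod.ext h2 h3) (Prod.ext h5 h6)

lemma fixed_of {x : Fin 8 → ℤ} (h4 : x 4 = -x 0 - x 1)
    (h5 : 2 * x 5 = x 0) (h6 : 2 * x 6 = x 1) (h7 : 2 * x 7 = x 0 + x 1) :
    x = gm ((x 2, x 3), (x 5, x 6)) := by
  ext i
  fin_cases i
  · show x 0 = 2 * x 5; omega
  · show x 1 = 2 * x 6; omega
  · rfl
  · rfl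
  · show x 4 = -2 * x 5 - 2 * x 6; omega
  · rfl
  · rfl
  · show x 7 = x 5 + x 6; omega

lemma fix2 (x : Fin 8 → ℤ) : (MI ^ 2).mulVec x = x ↔ ∃ p, x = gm p := by
  have e : (MI ^ 2).mulVec x = MI.mulVec (MI.mulVec x) := by
    rw [Matrix.mulVec_mulVec, pow_two]
  constructor
  · intro h
    rw [e, mulVec_MI x, mulVec_MI] at h
    have h4 := congrFun h 4
    have h5 := congrFun h 5
    have h6 := congrFun h 6
    have h7 := congrFun h 7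
    simp at h4 h5 h6 h7
    exact ⟨_, fixed_of (by omega) (by omega) (by omega) (by omega)⟩
  · rintro ⟨p, rfl⟩
    rw [e, mulVec_MI (gm p), mulVec_MI]
    ext i
    fin_cases i <;> simp [gm] <;> ring

lemma inZ_gm (m : ℕ) (p : (ℤ × ℤ) × (ℤ × ℤ)) : InZ m (gm p) ↔
    |p.1.1| + |p.1.2| + 2 * (|p.2.1| + |p.2.2|) ≤ (m : ℤ) := by
  have y1g : y1 (gm p) = 0 := by
    show -2 * p.2.1 - 2 * p.2.2 + 2 * p.2.1 + 2 * p.2.2 = 0; ring
  have y2g : y2 (gm p) = 0 := by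
    show -2 * p.2.1 - 2 * p.2.2 + 2 * p.2.1 + 2 * p.2.2 = 0; ring
  have y3g : y3 (gm p) = 0 := by
    show -2 * p.2.1 - 2 * p.2.2 + 2 * p.2.2 + 2 * p.2.1 = 0; ring
  have y4g : y4 (gm p) = 0 := by
    show -2 * p.2.1 - 2 * p.2.2 + 2 * (p.2.1 + p.2.2) = 0; ring
  have g0 : |(gm p) 0| = 2 * |p.2.1| := by
    show |2 * p.2.1| = _
    rw [abs_mul]; rfl
  have g1 : |(gm p) 1| = 2 * |p.2.2| := by
    show |2 * p.2.2| = _
    rw [abs_mul]; rfl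
  have g2 : |(gm p) 2| = |p.1.1| := rfl
  have g3 : |(gm p) 3| = |p.1.2| := rfl
  have a0 := abs_nonneg p.2.1
  have b0 := abs_nonneg p.2.2
  have c0 := abs_nonneg p.1.1
  have d0 := abs_nonneg p.1.2
  unfold InZ
  rw [y1g, y2g, y3g, y4g, g0, g1, g2, g3, abs_zero]
  constructor
  · intro h
    omega
  · intro h
    refine ⟨?_, ?_, ?_, ?_, ?_, ?_, ?_⟩ <;> omega

/-- sums of even functions over a symmetric interval -/
lemma sum_even (f : ℕ → ℤ) (s : ℕ) : ∑ v ∈ Icc (-(s : ℤ)) s, f v.natAbs =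
    f 0 + 2 * ∑ k ∈ range s, f (k + 1) := by
  induction s with
  | zero => simp
  | succ s ih =>
    have e : Icc (-((s + 1 : ℕ) : ℤ)) ((s + 1 : ℕ) : ℤ) =
        insert (-((s : ℤ) + 1)) (insert ((s : ℤ) + 1) (Icc (-(s : ℤ)) s)) := by
      ext x
      simp only [mem_Icc, mem_insert]
      push_cast
      omega
    rw [e, sum_insert (by simp only [mem_insert, mem_Icc]; omega),
      sum_insert (by simp only [mem_Icc]; omega), ih, sum_range_succ]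
    have e1 : (-((s : ℤ) + 1)).natAbs = s + 1 := by omega
    have e2 : ((s : ℤ) + 1).natAbs = s + 1 := by omega
    rw [e1, e2]
    ring

/-- inner sums -/
def F (s : ℕ) : ℤ := E00 s + 2 * ∑ k ∈ range s, (E00 k : ℤ)

/-- outer sums -/
def T (s : ℕ) : ℤ := F s + 2 * ∑ k ∈ range s, F k

lemma F_succ (s : ℕ) : F (s + 1) = F s + E00 (s + 1) + E00 s := by
  unfold F
  rw [sum_range_succ]
  ring

lemma T_succ (s : ℕ) : T (s + 1) = T s + F (s + 1) + F s := by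
  unfold T
  rw [sum_range_succ]
  ring

lemma E_even (s : ℕ) : (E00 (2 * s) : ℤ) = 2 * (s : ℤ) ^ 2 + 2 * s + 1 := by
  unfold E00
  rw [show 2 * s / 2 = s by omega]
  push_cast
  ring

lemma E_odd (s : ℕ) : (E00 (2 * s + 1) : ℤ) = 2 * (s : ℤ) ^ 2 + 2 * s + 1 := by
  unfold E00
  rw [show (2 * s + 1) / 2 = s by omega]
  push_cast
  ring

lemma closed (s : ℕ) : (3 * F (2 * s) = 3 + 8 * (s : ℤ) ^ 3 + 6 * (s : ℤ) ^ 2 + 10 * s) ∧
    (6 * T (2 * s) = 6 + 10 * ((2 * s : ℕ) : ℤ) + 11 * ((2 * s : ℕ) : ℤ) ^ 2 +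
      2 * ((2 * s : ℕ) : ℤ) ^ 3 + ((2 * s : ℕ) : ℤ) ^ 4) ∧
    (6 * T (2 * s + 1) = 6 + 10 * ((2 * s + 1 : ℕ) : ℤ) + 11 * ((2 * s + 1 : ℕ) : ℤ) ^ 2 +
      2 * ((2 * s + 1 : ℕ) : ℤ) ^ 3 + ((2 * s + 1 : ℕ) : ℤ) ^ 4) := by
  induction s with
  | zero =>
    refine ⟨?_, ?_, ?_⟩
    · simp [F, E00]
    · simp [T, F, E00]
    · simp [T, F, E00]
  | succ s ih =>
    obtain ⟨h1, h2, h3⟩ := ih
    have a1 := F_succ (2 * s)
    have a2 := F_succ (2 * s + 1)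
    have a3 := F_succ (2 * (s + 1))
    have b1 := T_succ (2 * s + 1)
    have b2 := T_succ (2 * (s + 1))
    have c0 := E_even s
    have c1 := E_odd s
    have c2 := E_even (s + 1)
    have c3 := E_odd (s + 1)
    rw [show 2 * s + 1 + 1 = 2 * (s + 1) by ring] at a2 b1
    rw [c0, c1] at a1
    rw [c1, c2] at a2
    rw [c2, c3] at a3
    push_cast at *
    refine ⟨?_, ?_, ?_⟩
    · linear_combination h1 + 3 * a1 + 3 * a2
    · linear_combination h3 + 6 * b1 + 6 * a2 + 12 * a1 + 4 * h1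
    · linear_combination h3 + 6 * b1 + 6 * b2 + 6 * a3 + 18 * a2 + 24 * a1 + 8 * h1

lemma T_poly (m : ℕ) : 6 * T m = 6 + 10 * (m : ℤ) + 11 * (m : ℤ) ^ 2 + 2 * (m : ℤ) ^ 3 +
    (m : ℤ) ^ 4 := by
  obtain ⟨s, hs | hs⟩ : ∃ s, m = 2 * s ∨ m = 2 * s + 1 := ⟨m / 2, by omega⟩
  · rw [hs]; exact (closed s).2.1
  · rw [hs]; exact (closed s).2.2

lemma F_eq (s : ℕ) : ∑ b ∈ Icc (-(s : ℤ)) s, (E00 (s - b.natAbs) : ℤ) = F s := by
  rw [sum_even (fun k => (E00 (s - k) : ℤ)) s]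
  unfold F
  congr 2
  rw [← sum_range_reflect (fun k => (E00 k : ℤ)) s]
  refine sum_congr rfl (fun k _ => ?_)
  congr 2
  omega

lemma T_eq (s : ℕ) : ∑ b ∈ Icc (-(s : ℤ)) s, F (s - b.natAbs) = T s := by
  rw [sum_even (fun k => F (s - k)) s]
  unfold T
  congr 2
  rw [← sum_range_reflect (fun k => F k) s]
  refine sum_congr rfl (fun k _ => ?_)
  congr 1
  omega

/-- the points to be counted -/
noncomputable def Q (m : ℕ) : Finset ((ℤ × ℤ) × (ℤ × ℤ)) :=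
  ((Icc (-(m : ℤ)) m ×ˢ Icc (-(m : ℤ)) m) ×ˢ (Icc (-(m : ℤ)) m ×ˢ Icc (-(m : ℤ)) m)).filter
    fun p => |p.1.1| + |p.1.2| + 2 * (|p.2.1| + |p.2.2|) ≤ (m : ℤ)

lemma mem_Q (m : ℕ) (p : (ℤ × ℤ) × (ℤ × ℤ)) : p ∈ Q m ↔
    |p.1.1| + |p.1.2| + 2 * (|p.2.1| + |p.2.2|) ≤ (m : ℤ) := by
  unfold Q
  rw [mem_filter, mem_product, mem_product, mem_product, mem_Icc, mem_Icc, mem_Icc, mem_Icc]
  constructor
  · rintro ⟨-, h⟩
    exact h
  · intro h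
    have a0 := abs_nonneg p.2.1
    have b0 := abs_nonneg p.2.2
    have c0 := abs_nonneg p.1.1
    have d0 := abs_nonneg p.1.2
    exact ⟨⟨⟨abs_le.1 (by linarith), abs_le.1 (by linarith)⟩, abs_le.1 (by linarith),
      abs_le.1 (by linarith)⟩, h⟩

lemma inner_card (m : ℕ) (a b : ℤ) (h : |a| + |b| ≤ (m : ℤ)) :
    ((Icc (-(m : ℤ)) m ×ˢ Icc (-(m : ℤ)) m).filter
      fun q : ℤ × ℤ => |a| + |b| + 2 * (|q.1| + |q.2|) ≤ (m : ℤ)).card =
    E00 (m - a.natAbs - b.natAbs) := by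
  have e : ((Icc (-(m : ℤ)) m ×ˢ Icc (-(m : ℤ)) m).filter
      fun q : ℤ × ℤ => |a| + |b| + 2 * (|q.1| + |q.2|) ≤ (m : ℤ)) =
      dia ((m - a.natAbs - b.natAbs) / 2) := by
    ext q
    rw [mem_dia, mem_filter, mem_product, mem_Icc, mem_Icc]
    have ha : |a| = (a.natAbs : ℤ) := Int.abs_eq_natAbs a
    have hb : |b| = (b.natAbs : ℤ) := Int.abs_eq_natAbs b
    have hq1 : |q.1| = (q.1.natAbs : ℤ) := Int.abs_eq_natAbs q.1
    have hq2 : |q.2| = (q.2.natAbs : ℤ) := Int.abs_eq_natAbs q.2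
    rw [ha, hb] at h
    rw [ha, hb, hq1, hq2]
    omega
  rw [e, card_dia]
  rfl

lemma card_Q (m : ℕ) : ((Q m).card : ℤ) = T m := by
  have h1 : (Q m).card = ∑ a ∈ Icc (-(m : ℤ)) m, ∑ b ∈ Icc (-(m : ℤ)) m,
      ((Icc (-(m : ℤ)) m ×ˢ Icc (-(m : ℤ)) m).filter
        fun q : ℤ × ℤ => |a| + |b| + 2 * (|q.1| + |q.2|) ≤ (m : ℤ)).card := by
    unfold Q
    rw [card_filter, sum_product, sum_product]
    refine sum_congr rfl (fun a _ => sum_congr rfl (fun b _ => ?_))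
    rw [card_filter]
  rw [h1, ← T_eq]
  push_cast
  refine sum_congr rfl (fun a ha => ?_)
  rw [mem_Icc] at ha
  rw [← F_eq]
  have e : ∑ b ∈ Icc (-(m : ℤ)) m, ((((Icc (-(m : ℤ)) m ×ˢ Icc (-(m : ℤ)) m).filter
        fun q : ℤ × ℤ => |a| + |b| + 2 * (|q.1| + |q.2|) ≤ (m : ℤ)).card : ℕ) : ℤ) =
      ∑ b ∈ Icc (-(m : ℤ)) m, if |a| + |b| ≤ (m : ℤ) then
        (E00 (m - a.natAbs - b.natAbs) : ℤ) else 0 := by
    refine sum_congr rfl (fun b _ => ?_)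
    split_ifs with h
    · rw [inner_card m a b h]
    · have : ((Icc (-(m : ℤ)) m ×ˢ Icc (-(m : ℤ)) m).filter
          fun q : ℤ × ℤ => |a| + |b| + 2 * (|q.1| + |q.2|) ≤ (m : ℤ)) = ∅ := by
        rw [filter_eq_empty_iff]
        intro q _ hq
        have a0 := abs_nonneg q.1
        have b0 := abs_nonneg q.2
        exact h (by linarith)
      rw [this]
      rfl
  rw [e, ← sum_filter]
  have e2 : (Icc (-(m : ℤ)) m).filter (fun b => |a| + |b| ≤ (m : ℤ)) =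
      Icc (-((m - a.natAbs : ℕ) : ℤ)) ((m - a.natAbs : ℕ) : ℤ) := by
    ext b
    rw [mem_filter, mem_Icc, mem_Icc]
    have ha' : |a| = (a.natAbs : ℤ) := Int.abs_eq_natAbs a
    have hb : |b| = (b.natAbs : ℤ) := Int.abs_eq_natAbs b
    rw [ha', hb]
    omega
  rw [e2]

theorem tFixM : Pool.Agent.H972ST.TFixM := by
  intro m
  have a2 : mat (.a 2) = MI ^ 2 := rfl
  rw [a2]
  simp only [fix2]
  have h : {x : Fin 8 → ℤ | InZ m x ∧ ∃ p, x = gm p} =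
      gm '' (Q m : Set ((ℤ × ℤ) × (ℤ × ℤ))) := by
    ext x
    constructor
    · rintro ⟨h1, p, rfl⟩
      exact ⟨p, (mem_Q _ _).2 ((inZ_gm m p).1 h1), rfl⟩
    · rintro ⟨p, hp, rfl⟩
      exact ⟨(inZ_gm m p).2 ((mem_Q _ _).1 hp), p, rfl⟩
  rw [h, Set.ncard_image_of_injective _ gm_inj, Set.ncard_coe_finset]
  have h1 := card_Q m
  have h2 := T_poly m
  rw [← h1] at h2
  have h3 : (6 : ℚ) * ((Q m).card : ℚ) = 6 + 10 * (m : ℚ) + 11 * (m : ℚ) ^ 2 + 2 * (m : ℚ) ^ 3 +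
      (m : ℚ) ^ 4 := by exact_mod_cast h2
  linear_combination h3 / 6

end Pool.Agent.H99R3.STFixM
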